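import Pool.Agent.Lib.MP_1a91b9_ntP.G.GDef
import Pool.Agent.Lib.MP_1a91b9_ntS.DG.One4

/-!
# MP_1a91b9_nt, several twists over `Q(sqrt -3)`, all classes modulo powers of two: the vanishing
theorem

`LV_OK`: the one-sided system with the weights `h q * m⁻¹ * (-1) ^ (tr (cc l * a q) + lg (del l) q)`
satisfies the hypotheses of the engine, with the mean value zero, if the products of `h` with the
quadratic characters of the system have the mean value zero.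
-/

set_option autoImplicit false
set_option linter.unusedSectionVars false

namespace Pool.Agent.Lib.MP_1a91b9_ntP.GV

open Finset Pool.Agent.Lib.MP_1a91b9_ntH Pool.Agent.Lib.MP_1a91b9_ntH.Da
  Pool.Agent.Lib.MP_1a91b9_ntP
open Pool.Agent.Lib.MP_1a91b9_ntV (ord Phi1 Phi1_lk Phi1_self Phi1_os LG An SumB ub2 xg HG engineG)
open Pool.Agent.Lib.MP_1a91b9_ntQ (e2 e2_add e2_sum e2_zero e2_one norm_e2 Mz Dat2)
open Pool.Agent.Lib.MP_1a91b9_ntS.DG (zz zz_self FR4 nl4 sum_nl4 exp_one4 Fh4 four4 norm_Fh4_le)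

noncomputable section

variable {ι : Type} [DecidableEq ι] {κ : Type} [Fintype κ] {L : Type} [Fintype L] [DecidableEq L]

/-- The symbols for the engine. -/
def D2 (D : DatG ι κ) : Dat2 ι Unit where
  s := D.s
  a := fun _ _ => 0

theorem an_D2 [PS ι] {D : DatG ι κ} (hD : D.OK) : An (D2 D) where
  cheb := hD.cheb
  zt := hD.zt
  bl := hD.bl

private theorem w_norm_add (a b : ZMod 2) : ‖e2 a + e2 b‖ ≤ 3 / 2 + sg (a + b) / 2 := by
  have h2 : (1 : ZMod 2) + 1 = 0 := by decide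
  have h3 : ‖(1 : ℂ) + 1‖ = 2 := by norm_num
  have h4 : ‖(-1 : ℂ) + -1‖ = 2 := by norm_num
  rcases zz a with rfl | rfl <;> rcases zz b with rfl | rfl <;>
    simp only [add_zero, zero_add, h2, sg_zero, sg_one, e2_zero, e2_one, add_neg_cancel,
      neg_add_cancel, norm_zero, h3, h4] <;> norm_num

private theorem w_norm_sum {M : Type} [DecidableEq M] (U : Finset M) (x : M → ZMod 2) (l l' : M)
    (hl : l ∈ U) (hl' : l' ∈ U) (hne : l ≠ l') :
    ‖∑ k ∈ U, e2 (x k)‖ ≤ ((2 * U.card - 1 : ℝ) + sg (x l + x l')) / 2 := by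
  have h1 : l' ∈ U.erase l := mem_erase.2 ⟨hne.symm, hl'⟩
  have e1 : ∑ k ∈ U, e2 (x k) = (e2 (x l) + e2 (x l')) + ∑ k ∈ (U.erase l).erase l', e2 (x k) := by
    rw [← add_sum_erase U _ hl, ← add_sum_erase (U.erase l) _ h1]
    ring
  have c1 : (((U.erase l).erase l').card : ℝ) = (U.card : ℝ) - 2 := by
    have a1 := card_erase_add_one hl
    have a2 := card_erase_add_one h1
    have a3 : ((U.erase l).erase l').card + 2 = U.card := by omega
    rw [← a3]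
    push_cast
    ring
  rw [e1]
  have h2 : ‖∑ k ∈ (U.erase l).erase l', e2 (x k)‖ ≤ (U.card : ℝ) - 2 := by
    refine (norm_sum_le _ _).trans ?_
    rw [← c1]
    simp only [norm_e2, sum_const, nsmul_eq_mul, mul_one]
    exact le_refl _
  have h3 := w_norm_add (x l) (x l')
  have h4 := norm_add_le (e2 (x l) + e2 (x l')) (∑ k ∈ (U.erase l).erase l', e2 (x k))
  linarith

/-- The exponent of the character of the label `l`. -/
def xe (D : DatG ι κ) (cc : L → F4) (del : L → κ → ZMod 2) (l : L) (q : ι) : ZMod 2 :=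
  F4.tr (cc l * D.a q) + D.lg (del l) q

theorem xe_pair (D : DatG ι κ) (cc : L → F4) (del : L → κ → ZMod 2) (l l' : L) (q : ι) :
    xe D cc del l q + xe D cc del l' q =
      F4.tr ((cc l + cc l') * D.a q) + D.lg (del l + del l') q := by
  unfold xe
  rw [add_mul, F4.tr_add, lg_add]
  ring

/-- The label system, with a weight `h` of modulus `1`. -/
def LV (D : DatG ι κ) (Λ : LSysG L κ) (h : ι → ℂ) (cc : L → F4) : LG L ι where
  Phi := Phi1 Λ.Phi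
  g := fun l q => h q * ((Λ.m : ℂ)⁻¹ * e2 (xe D cc Λ.del l q))

theorem LV_lk (D : DatG ι κ) (Λ : LSysG L κ) (h : ι → ℂ) (cc : L → F4) (l m : L) :
    (LV D Λ h cc).lk l m = Λ.lk l m := by
  show Phi1 Λ.Phi l m + Phi1 Λ.Phi m l = _
  rw [Phi1_lk]
  rfl

theorem LV_Unl (D : DatG ι κ) (Λ : LSysG L κ) (h : ι → ℂ) (cc : L → F4) (U : Finset L) :
    (LV D Λ h cc).Unl U ↔ Λ.Unl U := by
  rw [LG.Unl, LSys.Unl]
  simp only [LV_lk]

theorem norm_gV (D : DatG ι κ) (Λ : LSysG L κ) {h : ι → ℂ} (hn : ∀ q, ‖h q‖ = 1) (cc : L → F4)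
    (l : L) (q : ι) : ‖(LV D Λ h cc).g l q‖ = ((Λ.m : ℝ))⁻¹ := by
  show ‖h q * ((Λ.m : ℂ)⁻¹ * e2 (xe D cc Λ.del l q))‖ = _
  rw [norm_mul, norm_mul, hn, one_mul, norm_e2, mul_one, norm_inv, Complex.norm_natCast]

/-- The linear term from the reciprocity law. -/
def bV (D : DatG ι κ) (Λ : LSysG L κ) (b : L → Finset ι) (l : L) : F4 :=
  ∑ m, F4.of (Phi1 Λ.Phi m l) * ∑ p ∈ b m, D.a p

theorem xg_eqV (D : DatG ι κ) (hrec : D.Rec) (Λ : LSysG L κ) (h : ι → ℂ) (cc : L → F4)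
    (b : L → Finset ι) (l : L) (q : ι) (hq : q ∉ uni b) :
    xg (D2 D) (LV D Λ h cc) b l q = ∑ m, Λ.lk l m * ∑ p ∈ b m, D.s q p +
      F4.tr (bV D Λ b l * D.a q) := by
  have hd : ∀ (t : ZMod 2) (x y : F4), t * F4.tr (x * y) = F4.tr (F4.of t * x * y) := by decide
  unfold xg bV
  rw [sum_mul, F4.tr_sum, ← sum_add_distrib]
  refine sum_congr rfl fun m _ => ?_
  have h1 : (D2 D).ss {q} (b m) = ∑ p ∈ b m, D.s q p := sum_singleton _ _
  have h2 : (D2 D).ss (b m) {q} = ∑ p ∈ b m, D.s q p + F4.tr ((∑ p ∈ b m, D.a p) * D.a q) := by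
    unfold Dat2.ss
    rw [sum_mul, F4.tr_sum, ← sum_add_distrib]
    refine sum_congr rfl fun p hp => ?_
    rw [sum_singleton]
    have hne : p ≠ q := by
      rintro rfl
      exact hq (mem_uni.2 ⟨m, hp⟩)
    have h3 := hrec p q hne
    have h4 : D.s p q = D.s q p + F4.tr (D.a p * D.a q) := by
      rw [← h3, add_comm (D.s p q), ← add_assoc, zz_self, zero_add]
    exact h4
  have h3 : Λ.lk l m = Phi1 Λ.Phi l m + Phi1 Λ.Phi m l := by rw [Phi1_lk]; rfl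
  rw [h1, h2, h3]
  show Phi1 Λ.Phi l m * _ + Phi1 Λ.Phi m l * _ = _
  rw [← hd]
  ring

/-- The coefficient of the symbol at `p`. -/
def tV (Λ : LSysG L κ) (b : L → Finset ι) (l l' : L) (p : ι) : ZMod 2 :=
  ∑ m, if p ∈ b m then Λ.lk l m + Λ.lk l' m else 0

open Classical in
/-- The primes of the character of a pair of labels. -/
def TV (Λ : LSysG L κ) (b : L → Finset ι) (l l' : L) : Finset ι :=
  (uni b).filter fun p => tV Λ b l l' p ≠ 0

theorem sum_TV (D : DatG ι κ) (Λ : LSysG L κ) (b : L → Finset ι) (l l' : L) (q : ι) :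
    ∑ m, Λ.lk l m * ∑ p ∈ b m, D.s q p + ∑ m, Λ.lk l' m * ∑ p ∈ b m, D.s q p =
      ∑ p ∈ TV Λ b l l', D.s q p := by
  classical
  have h1 : ∑ p ∈ TV Λ b l l', D.s q p = ∑ p ∈ uni b, tV Λ b l l' p * D.s q p := by
    unfold TV
    rw [sum_filter]
    refine sum_congr rfl fun p _ => ?_
    by_cases h : tV Λ b l l' p = 0
    · rw [if_neg (not_not.2 h), h, zero_mul]
    · rw [if_pos h, (zz _).resolve_left h, one_mul]
  rw [h1]
  unfold tV
  rw [sum_congr rfl fun p _ => sum_mul _ _ _, sum_comm, ← sum_add_distrib]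
  refine sum_congr rfl fun m _ => ?_
  rw [← add_mul, mul_sum]
  have h4 : ∀ p ∈ b m, (Λ.lk l m + Λ.lk l' m) * D.s q p =
      (if p ∈ b m then Λ.lk l m + Λ.lk l' m else 0) * D.s q p := fun p hp => by rw [if_pos hp]
  rw [sum_congr rfl h4]
  refine sum_subset (sub_uni b m) fun p _ hp2 => ?_
  rw [if_neg hp2, zero_mul]

private theorem chV_abs (D : DatG ι κ) (T : Finset ι) (c : F4) (e : κ → ZMod 2) (q : ι) :
    |D.ch T c e q| ≤ 1 := by
  unfold DatG.ch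
  split_ifs
  · simp
  · exact (abs_sg _).le

variable [PS ι]

theorem LV_mid {D : DatG ι κ} (hD : D.OK) {Λ : LSysG L κ} (hΛ : Λ.OK) {h : ι → ℂ}
    (hn : ∀ q, ‖h q‖ = 1) (cc : L → F4) :
    ∃ C : ℝ, ∀ U ∈ Λ.Us, ∀ b : L → Finset ι, PD b → (∀ l ∈ U, b l = ∅) → uni b ≠ ∅ →
    (∀ l, ∀ q ∈ b l, (LV D Λ h cc).g l q ≠ 0) →
    ∃ ψ : ι → ℝ, SumB ψ ((C * (1 + Real.log (nm (uni b)))) ^ (2 * Λ.m)) ∧
      (∀ q, 0 ≤ (((2 * Λ.m : ℕ) : ℝ) - 1) + ψ q) ∧ ∀ q, q ∉ uni b →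
        ‖HG (D2 D) (LV D Λ h cc) U b q‖ ≤ 1 ∧ ‖HG (D2 D) (LV D Λ h cc) U b q‖ ≤
          ((((2 * Λ.m : ℕ) : ℝ) - 1) + ψ q) / ((2 * Λ.m : ℕ) : ℝ) := by
  classical
  obtain ⟨C, hC⟩ := hD.cb
  have h2m := hΛ.two
  have hm : (2 : ℝ) ≤ Λ.m := by exact_mod_cast h2m
  refine ⟨|C| + 1, fun U hU b hb hbU hne _ => ?_⟩
  obtain ⟨hU1, hU2⟩ := (Λ.mem_Us U).1 hU
  obtain ⟨p0, hp0⟩ := nonempty_iff_ne_empty.2 hne
  obtain ⟨m0, hm0⟩ := mem_uni.1 hp0
  have hm0U : m0 ∉ U := fun hm => by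
    rw [hbU m0 hm] at hm0
    exact absurd hm0 (notMem_empty _)
  obtain ⟨l, hl, l', hl', hll⟩ := hΛ.k2 U hU1 hU2 m0 hm0U
  have hne' : l ≠ l' := fun e => hll (by rw [e])
  set T := TV Λ b l l' with hT
  set c : F4 := cc l + cc l' + (bV D Λ b l + bV D Λ b l') with hc
  set e : κ → ZMod 2 := Λ.del l + Λ.del l' with he
  have hTs : T ⊆ uni b := filter_subset _ _
  have hTne : T ≠ ∅ := by
    refine nonempty_iff_ne_empty.1 ⟨p0, ?_⟩
    rw [hT, TV]
    refine mem_filter.2 ⟨hp0, ?_⟩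
    have h1 : tV Λ b l l' p0 = Λ.lk l m0 + Λ.lk l' m0 := by
      unfold tV
      rw [sum_eq_single m0, if_pos hm0]
      · intro m _ hm
        exact if_neg fun h => (disjoint_left.1 (hb m m0 hm)) h hm0
      · intro h
        exact absurd (mem_univ _) h
    rw [h1]
    intro h2
    have h3 : ∀ x y : ZMod 2, x + y = 0 → x = y := by decide
    exact hll (h3 _ _ h2)
  have hCT := SumB.of (hC T c e (Or.inl hTne))
  have hTn : (1 : ℝ) ≤ nm T := by exact_mod_cast one_le_nm T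
  have hlT : 0 ≤ Real.log (nm T) := Real.log_nonneg hTn
  have hlog : Real.log (nm T) ≤ Real.log (nm (uni b)) := by
    refine Real.log_le_log (by linarith) ?_
    exact_mod_cast Pool.Agent.Lib.MP_1a91b9_ntQ.D.nm_mono hTs
  have hch := fun q => abs_le.1 (chV_abs D T c e q)
  refine ⟨D.ch T c e, hCT.mono ?_, fun q => ?_, fun q hq => ?_⟩
  · calc C * (1 + Real.log (nm T)) ≤ (|C| + 1) * (1 + Real.log (nm T)) := by
          refine mul_le_mul_of_nonneg_right ?_ (by linarith)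
          have := le_abs_self C
          linarith
      _ ≤ (|C| + 1) * (1 + Real.log (nm (uni b))) :=
          mul_le_mul_of_nonneg_left (by linarith) (by positivity)
      _ ≤ ((|C| + 1) * (1 + Real.log (nm (uni b)))) ^ (2 * Λ.m) := by
          refine le_self_pow₀ ?_ (by omega)
          have h1 : (1 : ℝ) ≤ |C| + 1 := by linarith [abs_nonneg C]
          have h2 : (1 : ℝ) ≤ 1 + Real.log (nm (uni b)) := by linarith
          nlinarith
  · have := (hch q).1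
    push_cast
    linarith
  · -- the bound
    have hx : ∀ l ∈ U, (LV D Λ h cc).g l q * e2 (xg (D2 D) (LV D Λ h cc) b l q) =
        h q * (Λ.m : ℂ)⁻¹ * e2 (xe D cc Λ.del l q + xg (D2 D) (LV D Λ h cc) b l q) := by
      intro l _
      rw [e2_add]
      show h q * ((Λ.m : ℂ)⁻¹ * e2 (xe D cc Λ.del l q)) * e2 (xg (D2 D) (LV D Λ h cc) b l q) = _
      ring
    have hH : HG (D2 D) (LV D Λ h cc) U b q = h q * (Λ.m : ℂ)⁻¹ *
        ∑ l ∈ U, e2 (xe D cc Λ.del l q + xg (D2 D) (LV D Λ h cc) b l q) := by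
      unfold HG
      rw [sum_congr rfl hx, mul_sum]
    have hTq : q ∉ T := fun h => hq (hTs h)
    have hsg : sg ((xe D cc Λ.del l q + xg (D2 D) (LV D Λ h cc) b l q) +
        (xe D cc Λ.del l' q + xg (D2 D) (LV D Λ h cc) b l' q)) = D.ch T c e q := by
      unfold DatG.ch
      rw [if_neg hTq]
      congr 1
      have h5 := xe_pair D cc Λ.del l l' q
      rw [hT, ← sum_TV D Λ b l l' q, hc, he, xg_eqV D hD.rec_ Λ h cc b l q hq,
        xg_eqV D hD.rec_ Λ h cc b l' q hq]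
      simp only [add_mul, F4.tr_add] at h5 ⊢
      linear_combination h5
    have hns := w_norm_sum U (fun l => xe D cc Λ.del l q + xg (D2 D) (LV D Λ h cc) b l q) l l' hl
      hl' hne'
    rw [hsg, hU2] at hns
    have hnH : ‖HG (D2 D) (LV D Λ h cc) U b q‖ ≤ (Λ.m : ℝ)⁻¹ *
        (((2 * (Λ.m : ℝ) - 1) + D.ch T c e q) / 2) := by
      rw [hH, norm_mul, norm_mul, hn, one_mul, norm_inv, Complex.norm_natCast]
      exact mul_le_mul_of_nonneg_left hns (by positivity)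
    have hm0 : (Λ.m : ℝ) ≠ 0 := by positivity
    have e1 : (Λ.m : ℝ)⁻¹ * (((2 * (Λ.m : ℝ) - 1) + D.ch T c e q) / 2) =
        ((((2 * Λ.m : ℕ) : ℝ) - 1) + D.ch T c e q) / ((2 * Λ.m : ℕ) : ℝ) := by
      push_cast
      field_simp
    rw [e1] at hnH
    refine ⟨hnH.trans ?_, hnH⟩
    have hpos : (0 : ℝ) < ((2 * Λ.m : ℕ) : ℝ) := by
      push_cast
      linarith
    rw [div_le_one hpos]
    have := (hch q).2
    linarith

private theorem w_small (δ K B ε : ℝ) (hδ : 0 < δ) (hK : 0 < K) (hB : 1 ≤ B) (hε : 0 < ε) :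
    ∃ X₀ : ℕ, ∀ X : ℕ, X₀ ≤ X → K * X * Real.log X ^ (-δ) * B ^ δ ≤ ε * X := by
  have h1 : Filter.Tendsto (fun X : ℕ => Real.log (X : ℝ) ^ (-δ)) Filter.atTop (nhds 0) :=
    (tendsto_rpow_neg_atTop hδ).comp
      (Real.tendsto_log_atTop.comp tendsto_natCast_atTop_atTop)
  have hP : 0 < K * B ^ δ := mul_pos hK (Real.rpow_pos_of_pos (by linarith) _)
  have h2 : ∀ᶠ X : ℕ in Filter.atTop, Real.log (X : ℝ) ^ (-δ) < ε / (K * B ^ δ) :=
    h1.eventually (gt_mem_nhds (div_pos hε hP))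
  obtain ⟨X₀, h3⟩ := Filter.eventually_atTop.1 h2
  refine ⟨X₀, fun X hX => ?_⟩
  have h4 := h3 X hX
  rw [lt_div_iff₀ hP] at h4
  have h5 : K * X * Real.log X ^ (-δ) * B ^ δ = (Real.log (X : ℝ) ^ (-δ) * (K * B ^ δ)) * X := by
    ring
  rw [h5]
  exact mul_le_mul_of_nonneg_right h4.le (Nat.cast_nonneg X)

theorem LV_main {D : DatG ι κ} (hD : D.OK) {Λ : LSysG L κ} (hΛ : Λ.OK) {h : ι → ℂ}
    (hn : ∀ q, ‖h q‖ = 1) (hz : D.Nq h) (cc : L → F4) :
    ∀ U ∈ Λ.Us, ∀ ε : ℝ, 0 < ε → ∃ X₀ : ℕ, ∀ X : ℕ, X₀ ≤ X →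
      ‖∑ S ∈ Sx ι X, ∏ q ∈ S, ∑ l ∈ U, (LV D Λ h cc).g l q‖ ≤ ε * X := by
  classical
  intro U hU ε hε
  obtain ⟨hU1, hU2⟩ := (Λ.mem_Us U).1 hU
  have h2m := hΛ.two
  have hm : (2 : ℝ) ≤ Λ.m := by exact_mod_cast h2m
  have hm0 : (Λ.m : ℝ) ≠ 0 := by positivity
  have hmc : (Λ.m : ℂ) ≠ 0 := by exact_mod_cast hm0
  by_cases hB : ∃ l ∈ U, ∃ l' ∈ U, ¬ (cc l = cc l' ∧ Λ.del l = Λ.del l')
  · obtain ⟨l, hl, l', hl', hll⟩ := hB
    have hne' : l ≠ l' := fun e => hll (by rw [e]; exact ⟨rfl, rfl⟩)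
    set c : F4 := cc l + cc l' with hc
    set e : κ → ZMod 2 := Λ.del l + Λ.del l' with he
    have hc0 : c ≠ 0 ∨ e ≠ 0 := by
      by_contra hcon
      push Not at hcon
      have h5 : ∀ x y : F4, x + y = 0 → x = y := by decide
      have h6 : ∀ x y : ZMod 2, x + y = 0 → x = y := by decide
      exact hll ⟨h5 _ _ hcon.1, funext fun j => h6 _ _ (congrFun hcon.2 j)⟩
    obtain ⟨C, hC⟩ := hD.cb
    obtain ⟨C1, hC1⟩ := hD.cheb
    obtain ⟨C2, hC2⟩ := hD.zt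
    have hCB := SumB.of (hC ∅ c e (Or.inr hc0))
    have hM2 : 2 ≤ 2 * Λ.m := by omega
    obtain ⟨K, hK, hub⟩ := ub2 hC1 hC2 (2 * Λ.m) hM2
    have hm0' : (0 : ℝ) < ((2 * Λ.m : ℕ) : ℝ) := by
      push_cast
      linarith
    obtain ⟨X₀, hX₀⟩ := w_small (1 / ((2 * Λ.m : ℕ) : ℝ)) K
      (C * (1 + Real.log (nm (∅ : Finset ι)))) ε (by positivity) hK hCB.hB hε
    refine ⟨max X₀ 2, fun X hX => ?_⟩
    have hH : ∀ q, ‖∑ l ∈ U, (LV D Λ h cc).g l q‖ ≤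
        ((((2 * Λ.m : ℕ) : ℝ) - 1) + D.ch ∅ c e q) / ((2 * Λ.m : ℕ) : ℝ) := by
      intro q
      have h1 : ∑ l ∈ U, (LV D Λ h cc).g l q =
          h q * ((Λ.m : ℂ)⁻¹ * ∑ l ∈ U, e2 (xe D cc Λ.del l q)) := by
        rw [mul_sum, mul_sum]
        rfl
      have hns := w_norm_sum U (fun l => xe D cc Λ.del l q) l l' hl hl' hne'
      have hsg : sg (xe D cc Λ.del l q + xe D cc Λ.del l' q) = D.ch ∅ c e q := by
        unfold DatG.ch
        rw [if_neg (notMem_empty _), sum_empty, add_zero, hc, he, xe_pair]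
      rw [hsg, hU2] at hns
      rw [h1, norm_mul, norm_mul, hn, one_mul, norm_inv, Complex.norm_natCast]
      refine (mul_le_mul_of_nonneg_left hns (by positivity)).trans (le_of_eq ?_)
      push_cast
      field_simp
    have hH1 : ∀ q, ‖∑ l ∈ U, (LV D Λ h cc).g l q‖ ≤ 1 := by
      intro q
      refine (norm_sum_le _ _).trans ?_
      simp only [norm_gV D Λ hn, sum_const, nsmul_eq_mul, hU2]
      rw [mul_inv_cancel₀ hm0]
    have h1 : ‖∑ S ∈ Sx ι X, ∏ q ∈ S, ∑ l ∈ U, (LV D Λ h cc).g l q‖ ≤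
        ∑ S ∈ Sx ι X, ∏ q ∈ S, ‖∑ l ∈ U, (LV D Λ h cc).g l q‖ := by
      refine (norm_sum_le _ _).trans (sum_le_sum fun S _ => ?_)
      rw [norm_prod]
    have h2 := hub (D.ch ∅ c e) _ hCB (fun q => ‖∑ l ∈ U, (LV D Λ h cc).g l q‖)
      (fun q => ⟨norm_nonneg _, hH1 q, hH q⟩) X ((le_max_right _ _).trans hX)
    have h3 := hX₀ X ((le_max_left _ _).trans hX)
    exact h1.trans (h2.trans h3)
  · push Not at hB
    have hne : U.Nonempty := by
      rw [← card_pos, hU2]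
      omega
    obtain ⟨l₀, hl₀⟩ := hne
    have hg : ∀ q, ∑ l ∈ U, (LV D Λ h cc).g l q =
        h q * e2 (F4.tr (cc l₀ * D.a q) + D.lg (Λ.del l₀) q) := by
      intro q
      have h1 : ∀ l ∈ U, (LV D Λ h cc).g l q =
          h q * ((Λ.m : ℂ)⁻¹ * e2 (F4.tr (cc l₀ * D.a q) + D.lg (Λ.del l₀) q)) := by
        intro l hl
        obtain ⟨h2, h3⟩ := hB l hl l₀ hl₀
        show h q * ((Λ.m : ℂ)⁻¹ * e2 (F4.tr (cc l * D.a q) + D.lg (Λ.del l) q)) = _
        rw [h2, h3]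
      rw [sum_congr rfl h1, sum_const, hU2, nsmul_eq_mul]
      linear_combination (h q * e2 (F4.tr (cc l₀ * D.a q) + D.lg (Λ.del l₀) q)) *
        (mul_inv_cancel₀ hmc)
    simp only [hg]
    obtain ⟨X₀, hX₀⟩ := hz (cc l₀) (Λ.del l₀) ε hε
    refine ⟨X₀, fun X hX => ?_⟩
    have h1 := hX₀ X hX
    rw [filter_true_of_mem fun S _ => disjoint_empty_right S] at h1
    exact h1

theorem LV_OK {D : DatG ι κ} (hD : D.OK) {Λ : LSysG L κ} (hΛ : Λ.OK) {h : ι → ℂ}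
    (hn : ∀ q, ‖h q‖ = 1) (hz : D.Nq h) (cc : L → F4) :
    (LV D Λ h cc).OK (D2 D) (2 * Λ.m) Λ.Us (fun _ => 0) fun _ => 0 where
  diag := fun l => Phi1_self _ l
  os := fun l m => Phi1_os _ l m
  nrm := fun l q => by
    have hm : (2 : ℝ) ≤ Λ.m := by exact_mod_cast hΛ.two
    rw [norm_gV D Λ hn]
    exact inv_le_one_of_one_le₀ (by linarith)
  two := by
    have := hΛ.two
    omega
  unl := fun U hU => (LV_Unl D Λ h cc U).2 ((Λ.mem_Us U).1 hU).1
  er := fun U hU l hl h => by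
    have h1 := ((Λ.mem_Us U).1 hU).2
    have h2 := ((Λ.mem_Us _).1 h).2
    have h3 := card_erase_add_one hl
    omega
  small := by
    refine ⟨1, fun Z hZ hZ2 => ⟨fun _ => 0, SumB.zero, fun q => ?_⟩⟩
    have hZ1 := (LV_Unl D Λ h cc Z).1 hZ
    have h1 := hΛ.k1 Z hZ1
    have h2 : Z.card ≠ Λ.m := fun h => hZ2 ((Λ.mem_Us Z).2 ⟨hZ1, h⟩)
    have h3 : Z.card + 1 ≤ Λ.m := by omega
    have h4 : (Z.card : ℝ) + 1 ≤ Λ.m := by exact_mod_cast h3
    have h5 : (0 : ℝ) < Λ.m := by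
      have : (2 : ℝ) ≤ Λ.m := by exact_mod_cast hΛ.two
      linarith
    have e1 : ∑ l ∈ Z, ‖(LV D Λ h cc).g l q‖ = Z.card * (Λ.m : ℝ)⁻¹ := by
      simp only [norm_gV D Λ hn, sum_const, nsmul_eq_mul]
    rw [e1]
    constructor
    · rw [← div_eq_mul_inv, div_le_one h5]
      linarith
    · rw [← div_eq_mul_inv, add_zero]
      push_cast
      rw [div_le_div_iff₀ h5 (by linarith)]
      nlinarith
  mid := LV_mid hD hΛ hn cc
  main := fun U hU ε hε => by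
    obtain ⟨X₀, h1⟩ := LV_main hD hΛ hn hz cc U hU ε hε
    refine ⟨X₀, fun X hX => ?_⟩
    rw [zero_mul, sub_zero]
    exact h1 X hX

theorem VS_eq {D : DatG ι κ} (hrec : D.Rec) {Λ : LSysG L κ} (hΛ : Λ.OK) (h : ι → ℂ) (X : ℕ) :
    ∑ S ∈ Sx ι X, ((Λ.m : ℂ)⁻¹) ^ S.card * (∏ q ∈ S, h q) *
        ∑ f : S → L, e2 (D.eS Λ S f) = ∑ ce : L → F4, Fh4 Λ.Phi ce *
      ∑ S ∈ Sx ι X, ∑ f : S → L, (∏ j : S, (LV D Λ h (Λ.gam + ce)).g (f j) j) *
        e2 (∑ j : S, ∑ l : S, (LV D Λ h (Λ.gam + ce)).Phi (f j) (f l) * (D2 D).s j l) := by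
  have h1 : ∀ S ∈ Sx ι X, ((Λ.m : ℂ)⁻¹) ^ S.card * (∏ q ∈ S, h q) *
      ∑ f : S → L, e2 (D.eS Λ S f) =
      ∑ ce : L → F4, Fh4 Λ.Phi ce * ∑ f : S → L,
        (∏ j : S, (LV D Λ h (Λ.gam + ce)).g (f j) j) *
        e2 (∑ j : S, ∑ l : S, (LV D Λ h (Λ.gam + ce)).Phi (f j) (f l) * (D2 D).s j l) := by
    intro S _
    have h6 : ∀ f : S → L, e2 (D.eS Λ S f) =
        ∑ ce : L → F4, Fh4 Λ.Phi ce *
          (e2 (∑ j : S, xe D (Λ.gam + ce) Λ.del (f j) j) *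
            e2 (∑ j : S, ∑ l : S, Phi1 Λ.Phi (f j) (f l) * D.s j l)) := by
      intro f
      have h7 : ∀ ce : L → F4, ∑ a, F4.tr (ce a * nl4 D.a S f a) =
          ∑ j : S, F4.tr (ce (f j) * D.a j) := by
        intro ce
        rw [← F4.tr_sum, sum_nl4, F4.tr_sum]
      have h8 : ∀ ce : L → F4, ∑ j : S, xe D (Λ.gam + ce) Λ.del (f j) j =
          ∑ j : S, F4.tr (Λ.gam (f j) * D.a j) + ∑ j : S, F4.tr (ce (f j) * D.a j) +
            ∑ j : S, D.lg (Λ.del (f j)) j := by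
        intro ce
        rw [← sum_add_distrib, ← sum_add_distrib]
        refine sum_congr rfl fun j _ => ?_
        unfold xe
        rw [Pi.add_apply, add_mul, F4.tr_add]
      unfold DatG.eS Dat.eS
      rw [exp_one4 D.toDat hrec Λ.Phi hΛ.diag S f]
      have h9 : ∑ j : S, F4.tr (Λ.gam (f j) * D.a j) +
          (∑ j : S, ∑ l : S, Phi1 Λ.Phi (f j) (f l) * D.s j l + FR4 Λ.Phi (nl4 D.a S f)) +
          ∑ j : S, D.lg (Λ.del (f j)) j =
          (∑ j : S, F4.tr (Λ.gam (f j) * D.a j) + ∑ j : S, D.lg (Λ.del (f j)) j) +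
          (∑ j : S, ∑ l : S, Phi1 Λ.Phi (f j) (f l) * D.s j l) + FR4 Λ.Phi (nl4 D.a S f) := by
        ring
      rw [h9, e2_add, four4, mul_sum]
      refine sum_congr rfl fun ce _ => ?_
      rw [h7, h8, e2_add, e2_add, e2_add, e2_add]
      ring
    simp only [h6]
    rw [sum_comm, mul_sum]
    refine sum_congr rfl fun ce _ => ?_
    rw [← mul_sum]
    have h7 : ∀ f : S → L, ∏ j : S, (LV D Λ h (Λ.gam + ce)).g (f j) j =
        ((Λ.m : ℂ)⁻¹) ^ S.card * ((∏ q ∈ S, h q) *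
          e2 (∑ j : S, xe D (Λ.gam + ce) Λ.del (f j) j)) := by
      intro f
      have h8 : ∀ j : S, (LV D Λ h (Λ.gam + ce)).g (f j) j = (Λ.m : ℂ)⁻¹ * (h j *
          e2 (xe D (Λ.gam + ce) Λ.del (f j) j)) := by
        intro j
        show h j * ((Λ.m : ℂ)⁻¹ * e2 (xe D (Λ.gam + ce) Λ.del (f j) j)) = _
        ring
      rw [prod_congr rfl fun j _ => h8 j, prod_mul_distrib, prod_const, card_univ,
        Fintype.card_coe, prod_mul_distrib, ← e2_sum, prod_coe_sort S h]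
    have h9 : ∀ f : S → L, (∏ j : S, (LV D Λ h (Λ.gam + ce)).g (f j) j) *
        e2 (∑ j : S, ∑ l : S, (LV D Λ h (Λ.gam + ce)).Phi (f j) (f l) * (D2 D).s j l) =
        ((Λ.m : ℂ)⁻¹) ^ S.card * (∏ q ∈ S, h q) *
          (e2 (∑ j : S, xe D (Λ.gam + ce) Λ.del (f j) j) *
          e2 (∑ j : S, ∑ l : S, Phi1 Λ.Phi (f j) (f l) * D.s j l)) := by
      intro f
      rw [h7 f]
      show ((Λ.m : ℂ)⁻¹) ^ S.card * ((∏ q ∈ S, h q) *
          e2 (∑ j : S, xe D (Λ.gam + ce) Λ.del (f j) j)) *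
          e2 (∑ j : S, ∑ l : S, Phi1 Λ.Phi (f j) (f l) * D.s j l) = _
      ring
    rw [sum_congr rfl fun f _ => h9 f, ← mul_sum]
    ring
  rw [sum_congr rfl h1, sum_comm]
  exact sum_congr rfl fun ce _ => (mul_sum _ _ _).symm

end

end Pool.Agent.Lib.MP_1a91b9_ntP.GV

namespace Pool.Agent.Lib.MP_1a91b9_ntP

open Finset Pool.Agent.Lib.MP_1a91b9_ntH
open Pool.Agent.Lib.MP_1a91b9_ntV (engineG)
open Pool.Agent.Lib.MP_1a91b9_ntS.DG (norm_Fh4_le)

/-- **The vanishing theorem.** -/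
theorem vanP {ι : Type} [DecidableEq ι] {κ : Type} [Fintype κ] [PS ι] {D : DatG ι κ}
    (hD : D.OK) : VanP D := by
  intro L _ _ Λ hΛ h hn hz ε hε
  have hN : (0 : ℝ) < Fintype.card (L → F4) := by
    exact_mod_cast Fintype.card_pos
  choose X0 h0 using fun ce : L → F4 =>
    engineG (GV.D2 D) (GV.an_D2 hD) (GV.LV D Λ h (Λ.gam + ce))
      (GV.LV_OK hD hΛ hn hz (Λ.gam + ce)) (ε / Fintype.card (L → F4)) (by positivity)
  refine ⟨∑ ce, X0 ce, fun X hX => ?_⟩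
  have hXt : ∀ ce, X0 ce ≤ X := fun ce =>
    (single_le_sum (fun _ _ => Nat.zero_le _) (mem_univ ce)).trans hX
  rw [GV.VS_eq hD.rec_ hΛ]
  refine (norm_sum_le _ _).trans ?_
  calc _ ≤ ∑ ce : L → F4, ε / Fintype.card (L → F4) * X := by
        refine sum_le_sum fun ce _ => ?_
        have h2 := h0 ce X (hXt ce)
        rw [mul_zero, sub_zero] at h2
        rw [norm_mul]
        calc _ ≤ 1 * _ := mul_le_mul_of_nonneg_right (norm_Fh4_le Λ.Phi ce) (norm_nonneg _)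
          _ ≤ _ := by
            rw [one_mul]
            exact h2
    _ = ε * X := by
        rw [sum_const, card_univ, nsmul_eq_mul]
        field_simp

end Pool.Agent.Lib.MP_1a91b9_ntP
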