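import Pool.Agent.Lib.MP_1a91b9_ntP.G.Fin
import Pool.Agent.Lib.MP_1a91b9_ntP.G.VanP

/-!
# MP_1a91b9_nt, several twists over `Q(sqrt -3)`: the joint densities in the classes of a finite group
-/

set_option autoImplicit false

namespace Pool.Agent.Lib.MP_1a91b9_ntP

open NumberField Finset Pool.Agent.Lib.MP_1a91b9_ntT Pool.Agent.Lib.MP_1a91b9_ntH
  Pool.Agent.Lib.MP_1a91b9_ntH2 Pool.Agent.Lib.MP_1a91b9_ntH2.Db Pool.Agent.Lib.MP_1a91b9_ntE
  Pool.Agent.Lib.MP_1a91b9_ntS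
open Pool.Agent.Lib.MP_1a91b9_ntQ (Off)

variable {G : Type} [AddCommGroup G] [Fintype G]

/-- **The joint density of the good sets of primes in the classes of `G`.** -/
theorem dsj_cl {cl : Pq → G}
    (hcl : ∀ (B : Finset Pq) (ψ : AddChar G ℂ),
      (offG qE B).Qc (fun q : Off B => ψ (cl q.1)) ∨ (offG qE B).Nq fun q : Off B => ψ (cl q.1)) :
    DSJG cl := dsjG (fun B => vanP (qG_OK B)) hcl

/-- **The joint density for pairs of labels in the classes of `G`.** -/
theorem dsp_cl {cl : Pq → G}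
    (hcl : ∀ (B : Finset Pq) (ψ : AddChar G ℂ),
      (offG qE B).Qc (fun q : Off B => ψ (cl q.1)) ∨ (offG qE B).Nq fun q : Off B => ψ (cl q.1)) :
    DSPG cl := dspG (fun B => vanP (qG_OK B)) hcl

end Pool.Agent.Lib.MP_1a91b9_ntP
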