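import Pool.Agent.Lib.MP_1a91b9_ntP.D.Defs
import Pool.Agent.Lib.MP_1a91b9_ntQ.D.Defs

/-!
# MP_1a91b9_nt, several twists over `Q(sqrt -3)`, all classes modulo powers of two: definitions

A weight `h` of absolute value `1` is a quadratic character of the system (`Qc`) or its product with
every quadratic character of the system has the mean value zero (`Nq`).
-/

set_option autoImplicit false
set_option linter.unusedSectionVars false

namespace Pool.Agent.Lib.MP_1a91b9_ntP

open Finset Pool.Agent.Lib.MP_1a91b9_ntH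
open Pool.Agent.Lib.MP_1a91b9_ntQ (e2 Mz)

noncomputable section

variable {ι : Type} [DecidableEq ι] {κ : Type} [Fintype κ]

/-- The weight is a quadratic character of the system. -/
def DatG.Qc (D : DatG ι κ) (h : ι → ℂ) : Prop :=
  ∃ (c : F4) (e : κ → ZMod 2), ∀ q, h q = e2 (F4.tr (c * D.a q) + D.lg e q)

/-- The product of the weight with every quadratic character has the mean value zero. -/
def DatG.Nq [PS ι] (D : DatG ι κ) (h : ι → ℂ) : Prop :=
  ∀ (c : F4) (e : κ → ZMod 2), Mz ∅ fun q => h q * e2 (F4.tr (c * D.a q) + D.lg e q)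

/-- **The vanishing theorem** for every label system. -/
def VanP [PS ι] (D : DatG ι κ) : Prop :=
  ∀ {L : Type} [Fintype L] [DecidableEq L] (Λ : LSysG L κ), Λ.OK → ∀ h : ι → ℂ,
    (∀ q, ‖h q‖ = 1) → D.Nq h → ∀ ε : ℝ, 0 < ε → ∃ X₀ : ℕ, ∀ X : ℕ, X₀ ≤ X →
      ‖∑ S ∈ Sx ι X, ((Λ.m : ℂ)⁻¹) ^ S.card * (∏ q ∈ S, h q) *
        ∑ f : S → L, e2 (D.eS Λ S f)‖ ≤ ε * X

end

end Pool.Agent.Lib.MP_1a91b9_ntP
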