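import Pool.Agent.Lib.MP_1a91b9_ntS.G.Inst3
import Pool.Agent.Lib.MP_1a91b9_ntP.D.Off
import Pool.Agent.Lib.MP_1a91b9_ntP.G.GDef

/-!
# MP_1a91b9_nt, several twists over `Q(sqrt -3)`, the classes modulo powers of two: the dichotomy for
the characters of the classes

A character of the group of the primary classes modulo `2 ^ (n + 2) * s3` is a quadratic character of
the system of the primes outside `B`, or its products with all the quadratic characters of the system
have mean value zero.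
-/

set_option autoImplicit false

namespace Pool.Agent.Lib.MP_1a91b9_ntP

open NumberField Finset Pool.Agent.Lib.MP_1a91b9_ntT Pool.Agent.Lib.MP_1a91b9_ntH
  Pool.Agent.Lib.MP_1a91b9_ntE
open Pool.Agent.Lib.MP_1a91b9_ntQ (e2 Mz Off up sum_Sx_off prod_up spB spB_subset sum_spB mem_spB)
open Pool.Agent.Lib.MP_1a91b9_ntR (sys GR cq QSys sys_com finite_quot psPg)
open Pool.Agent.Lib.MP_1a91b9_ntS.G (Q3 Q3_ne mod3 ps_eq psQ)

noncomputable section

/-- The quadratic characters modulo `8`. -/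
def wch (c : F4) (d : ZMod 2) (x : 𝓞 K) : ℂ :=
  ((sg (F4.tr (c * red (half x)) + d * tw2 x) : ℝ) : ℂ)

theorem eight_dvd_Q3 (n : ℕ) : (8 : 𝓞 K) ∣ Q3 (n + 1) := ⟨2 ^ n * s3, by unfold Q3; ring⟩

theorem wch_wt (n : ℕ) (c : F4) (d : ZMod 2) : (sys (𝓞 K)).Wt (Q3 (n + 1)) (wch c d) where
  one := by
    unfold wch
    rw [cls_one, mul_zero, tr_zero, tw2_one, mul_zero, add_zero, sg_zero]
    exact Complex.ofReal_one
  mul x y hx hy := by
    have hx' : InP x := hx
    have hy' : InP y := hy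
    have e : F4.tr (c * red (half (x * y))) + d * tw2 (x * y) =
        (F4.tr (c * red (half x)) + d * tw2 x) + (F4.tr (c * red (half y)) + d * tw2 y) := by
      rw [cls_mul hx'.two hy'.two, mul_add, F4.tr_add, tw2_mul hx' hy', mul_add]
      abel
    unfold wch
    rw [e, sg_add, Complex.ofReal_mul]
  norm x _ := by
    unfold wch
    rw [Complex.norm_real, Real.norm_eq_abs, abs_sg]
  per x y hx hxy := by
    have hx' : InP x := hx
    have h8 : (8 : 𝓞 K) ∣ x - y := (eight_dvd_Q3 n).trans hxy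
    have h4 : (4 : 𝓞 K) ∣ x - y := dvd_trans ⟨2, by norm_num⟩ h8
    unfold wch
    rw [cls_congr hx'.two h4, tw2_congr h8]

theorem wt_mono {n : ℕ} {ψ : 𝓞 K → ℂ} (h : (sys (𝓞 K)).Wt (Q3 n) ψ) :
    (sys (𝓞 K)).Wt (Q3 (n + 1)) ψ where
  one := h.one
  mul := h.mul
  norm := h.norm
  per x y hx hxy := h.per x y hx (dvd_trans ⟨2, by unfold Q3; ring⟩ hxy)

theorem wch_sq (c : F4) (d : ZMod 2) (x : 𝓞 K) : wch c d x * wch c d x = 1 := by
  unfold wch
  rw [← Complex.ofReal_mul, ← sg_add]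
  have e : ∀ a : ZMod 2, a + a = 0 := by decide
  rw [e, sg_zero, Complex.ofReal_one]

/-- **The dichotomy** for a multiplicative weight which is periodic modulo `Q3 n`. -/
theorem dichW {n : ℕ} {ψ : 𝓞 K → ℂ} (hψ : (sys (𝓞 K)).Wt (Q3 n) ψ) (B : Finset Pq) :
    (offG qE B).Qc (fun q : Off B => ψ q.1.1) ∨ (offG qE B).Nq (fun q : Off B => ψ q.1.1) := by
  classical
  by_cases h : ∃ (c : F4) (d : ZMod 2), ∀ x, InP x → ψ x * wch c d x = 1
  · obtain ⟨c, d, h⟩ := h
    refine Or.inl ⟨c, fun j => Sum.elim (fun _ => d) (fun _ => 0) j, fun q => ?_⟩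
    have h1 := h q.1.1 q.1.inP
    have h2 : ψ q.1.1 = wch c d q.1.1 := by
      calc ψ q.1.1 = ψ q.1.1 * (wch c d q.1.1 * wch c d q.1.1) := by rw [wch_sq, mul_one]
        _ = (ψ q.1.1 * wch c d q.1.1) * wch c d q.1.1 := by ring
        _ = wch c d q.1.1 := by rw [h1, one_mul]
    have h3 : (offG qE B).lg (fun j => Sum.elim (fun _ => d) (fun _ => 0) j) q = d * tw2 q.1.1 := by
      unfold DatG.lg
      rw [Fintype.sum_sum_type, sum_eq_zero (s := (univ : Finset B)) fun b _ => by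
        show (0 : ZMod 2) * _ = 0
        exact zero_mul _, add_zero, Fintype.sum_unique]
      rfl
    show ψ q.1.1 = _
    rw [h2, h3]
    rfl
  · push Not at h
    refine Or.inr fun c e => ?_
    obtain ⟨b, hb, hb1⟩ := h c (e (Sum.inl ()))
    have hw := (wt_mono hψ).mul' (wch_wt n c (e (Sum.inl ())))
    intro ε hε
    obtain ⟨X₀, hX₀⟩ := QSys.h3W (D := sys (𝓞 K)) sys_com (mod3 (n + 1)) (Q3_ne (n + 1)) hw B
      (fun p => if p ∈ spB e then 1 else 0) (Or.inr ⟨b, hb, hb1⟩) ε hε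
    refine ⟨X₀, fun X hX => ?_⟩
    have h1 := hX₀ X hX
    rw [ps_eq] at h1
    refine le_trans (le_of_eq ?_) h1
    congr 1
    have e1 : ∀ q : Off B, ψ q.1.1 * e2 (F4.tr (c * (offG qE B).a q) + (offG qE B).lg e q) =
        ψ q.1.1 * wch c (e (Sum.inl ())) q.1.1 *
          ((sg (∑ p ∈ B, (if p ∈ spB e then 1 else 0) * (sys (𝓞 K)).c p q.1.1) : ℝ) : ℂ) := by
      intro q
      have e2' : (∑ p ∈ B, (if p ∈ spB e then 1 else 0) * (sys (𝓞 K)).c p q.1.1) =
          ∑ p ∈ spB e, qE.s q.1 p := by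
        rw [← sum_subset (spB_subset e) fun p _ hp => by rw [if_neg hp, zero_mul]]
        refine sum_congr rfl fun p hp => ?_
        rw [if_pos hp, one_mul]
        show Pool.Agent.Lib.MP_1a91b9_ntR.c2 p q.1.1 = qd.s q.1 p
        unfold Pool.Agent.Lib.MP_1a91b9_ntR.c2
        show _ = (if IsSquare (Ideal.Quotient.mk (Ideal.span {p.1}) q.1.1) then (0 : ZMod 2) else 1)
        exact if_congr (isSquare_mk_iff p.1 q.1.1).symm rfl rfl
      rw [e2', lg_offG, mul_assoc]
      congr 1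
      unfold e2 wch
      rw [← Complex.ofReal_mul, ← sg_add]
      have e4 : F4.tr (c * (offG qE B).a q) + (e (Sum.inl ()) * qE.g q.1 +
          ∑ p ∈ spB e, qE.s q.1 p) = F4.tr (c * red (half q.1.1)) + e (Sum.inl ()) * tw2 q.1.1 +
          ∑ p ∈ spB e, qE.s q.1 p := by
        rw [add_assoc]
        rfl
      rw [e4]
    obtain ⟨f, hf⟩ : ∃ f : Pq → ℂ, f = fun q : Pq => (ψ q.1 * wch c (e (Sum.inl ())) q.1 *
        ((sg (∑ p ∈ B, (if p ∈ spB e then 1 else 0) * (sys (𝓞 K)).c p q.1) : ℝ) : ℂ)) := ⟨_, rfl⟩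
    have e3 : ∑ S ∈ (Sx (Off B) X).filter (fun S => Disjoint S ∅),
        ∏ q ∈ S, (ψ q.1.1 * e2 (F4.tr (c * (offG qE B).a q) + (offG qE B).lg e q)) =
        ∑ S ∈ Sx (Off B) X, ∏ q ∈ up S, f q := by
      rw [filter_true_of_mem fun S _ => disjoint_empty_right S]
      refine sum_congr rfl fun S _ => ?_
      rw [prod_up, hf]
      exact prod_congr rfl fun q _ => e1 q
    have e5 := sum_Sx_off (ι := Pq) (M := ℂ) B X fun S => ∏ q ∈ S, f q
    refine (e3.trans e5).trans ?_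
    rw [hf]
    rw [sum_filter]
    refine sum_congr rfl fun S _ => ?_
    by_cases hS : Disjoint S B
    · rw [if_pos hS]
      exact (if_pos hS).symm
    · rw [if_neg hS]
      exact (if_neg hS).symm

/-- **The dichotomy for the characters of the classes.** -/
theorem dich3 (n : ℕ) (B : Finset Pq) (ψ : AddChar (GR (mod3 n)) ℂ) :
    (offG qE B).Qc (fun q : Off B => ψ (cq (mod3 n) q.1)) ∨
      (offG qE B).Nq (fun q : Off B => ψ (cq (mod3 n) q.1)) := by
  have := finite_quot (Q3_ne n)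
  have h := dichW (QSys.wG_wt (D := sys (𝓞 K)) (mod3 n) ψ) B
  have e : (fun q : Off B => QSys.wG (D := sys (𝓞 K)) (mod3 n) ψ q.1.1) =
      fun q : Off B => ψ (cq (mod3 n) q.1) := by
    funext q
    exact QSys.wG_of (D := sys (𝓞 K)) (hQ := mod3 n) (x := q.1.1) q.1.inP
  rwa [e] at h

end

end Pool.Agent.Lib.MP_1a91b9_ntP
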