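import Pool.Agent.Lib.MP_1a91b9_ntP.Defs

/-!
# MP_1a91b9_nt, several twists over `Q(sqrt -3)`, the classes of a finite group: the statements of
part D

`cl q` is the class of the prime `q`. The labels are different modulo `-1`.
-/

set_option autoImplicit false

namespace Pool.Agent.Lib.MP_1a91b9_ntP

open NumberField Finset Pool.Agent.Lib.MP_1a91b9_ntT Pool.Agent.Lib.MP_1a91b9_ntH
  Pool.Agent.Lib.MP_1a91b9_ntH2 Pool.Agent.Lib.MP_1a91b9_ntE Pool.Agent.Lib.MP_1a91b9_ntS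

noncomputable section

open Classical in
/-- The sets of primes outside `B` in the class `g` with the property `Q` have lower density at least
`κ₀` among the sets of primes outside `B` in the class `g`. -/
def DSG {G : Type} [AddCommGroup G] (cl : Pq → G) (B : Finset Pq) (g : G) (κ₀ : ℝ)
    (Q : Finset Pq → Prop) : Prop :=
  ∀ ε : ℝ, 0 < ε → ∃ X₀ : ℕ, ∀ X : ℕ, X₀ ≤ X →
    κ₀ * (((Sx Pq X).filter fun S => Disjoint S B ∧ ∑ q ∈ S, cl q = g).card : ℝ) - ε * X ≤
      (((Sx Pq X).filter fun S => Disjoint S B ∧ ∑ q ∈ S, cl q = g ∧ Q S).card : ℝ)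

/-- The joint density of the good sets of primes in the classes of `G`. -/
def DSJG {G : Type} [AddCommGroup G] (cl : Pq → G) : Prop :=
  ∀ N : ℕ, 0 < N → ∀ (f : Fin N → Bool) (c : Fin N → F4) (T : Fin N → Finset Pq)
  (B : Finset Pq), (∀ i, T i ⊆ B) → Function.Injective (fun i => (f i, F4.tr (c i), T i)) →
  ∀ (g : G) (κ₀ : ℝ), κ₀ < Da.cinf ^ N → DSG cl B g κ₀ fun S => ∀ i, GdE (f i) (c i) (S ∪ T i)

/-- The joint density for pairs of labels in the classes of `G`. -/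
def DSPG {G : Type} [AddCommGroup G] (cl : Pq → G) : Prop :=
  ∀ N : ℕ, 0 < N → ∀ (f : Fin N → Bool) (c : Fin N → F4) (T : Fin N → Finset Pq)
  (B : Finset Pq), (∀ i, T i ⊆ B) → Function.Injective (fun i => (f i, F4.tr (c i), T i)) →
  ∀ (g : G) (κ₀ : ℝ), κ₀ < ∏ i, (if f i = true then Da.cinf / 2 else Da.cinf) →
  DSG cl B g κ₀ fun S => ∀ i, GdE (f i) (c i) (S ∪ T i) ∧ GdE (f i) (c i + 1) (S ∪ T i)

end

end Pool.Agent.Lib.MP_1a91b9_ntP
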