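import Pool.Agent.Lib.MP_1a91b9_ntP.G.MomG
import Pool.Agent.Lib.MP_1a91b9_ntP.J.Pair

/-!
# MP_1a91b9_nt, several twists over `Q(sqrt -3)`, all classes: combinations of the joint densities
-/

set_option autoImplicit false
set_option linter.unusedSectionVars false

namespace Pool.Agent.Lib.MP_1a91b9_ntP

open Finset Filter Topology Pool.Agent.Lib.MP_1a91b9_ntH Pool.Agent.Lib.MP_1a91b9_ntH.Da
  Pool.Agent.Lib.MP_1a91b9_ntE
open Pool.Agent.Lib.MP_1a91b9_ntQ (Off up dn up_injective sum_up up_mem_Sx mem_up up_dn dn_up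
  disj_up sum_Sx_off)

noncomputable section

variable {ι : Type} [DecidableEq ι] [PS ι] {D : DatE ι} {A : Type} [Fintype A] [DecidableEq A]
  {G : Type} [AddCommGroup G]

open Classical in
/-- The sets of primes outside `B` in the class `g`. -/
def BG (B : Finset ι) (cl : ι → G) (g : G) (X : ℕ) : Finset (Finset ι) :=
  (Sx ι X).filter fun S => Disjoint S B ∧ ∑ q ∈ S, cl q = g

/-- Sums over the class. -/
theorem sum_BG (B : Finset ι) (cl : ι → G) (g : G) (X : ℕ) (F : Finset ι → ℝ) :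
    ∑ S ∈ BO B cl g X, F (up S) = ∑ S ∈ BG B cl g X, F S := by
  classical
  have h1 := sum_Sx_off B X fun S : Finset ι => if ∑ q ∈ S, cl q = g then F S else 0
  have h2 : ∑ S ∈ BO B cl g X, F (up S) =
      ∑ S ∈ Sx (Off B) X, if ∑ q ∈ up S, cl q = g then F (up S) else 0 := by
    rw [BO, sum_filter]
    refine sum_congr rfl fun S _ => ?_
    rw [sum_up]
  rw [h2, h1, BG, sum_filter, sum_filter]
  refine sum_congr rfl fun S _ => ?_
  by_cases h : Disjoint S B
  · rw [if_pos h]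
    refine if_congr ?_ rfl rfl
    tauto
  · rw [if_neg h, if_neg]
    tauto

theorem card_BG (B : Finset ι) (cl : ι → G) (g : G) (X : ℕ) :
    ((BO B cl g X).card : ℝ) = ((BG B cl g X).card : ℝ) := by
  have h := sum_BG B cl g X fun _ => 1
  simp only [sum_const, nsmul_eq_mul, mul_one] at h
  exact h

variable [Fintype G]

/-- The mean value of the indicator. -/
theorem MD_inG [Nonempty A] (hD : D.toDat.Rec) (Q : A → Bs D) {B : Finset ι}
    (hB : (offG D B).OK) (hv : VanP (offG D B)) {T : A → Finset ι} (hT : ∀ a, T a ⊆ B)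
    (hi : Function.Injective fun a => ((Q a).ρ, (Q a).τ, T a)) (cl : ι → G)
    (hcl : ∀ ψ : AddChar G ℂ, (offG D B).Qc (fun q : Off B => ψ (cl q.1)) ∨
      (offG D B).Nq fun q : Off B => ψ (cl q.1)) (g : G) :
    MD (BG B cl g) (inJ Q T) (cinf ^ Fintype.card A) := by
  classical
  intro δ hδ ε hε
  have hm := fun k => MV_G hD Q hB hv hT hi cl hcl g k
  obtain ⟨X1, h1⟩ := dens_prod (B := BO B cl g) (x := fun a S => (Q a).kz (up S ∪ T a))
    (fun a S => (Q a).pow _) hm (κ₀ := cinf ^ Fintype.card A - δ) (by linarith) ε hε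
  obtain ⟨X2, h2⟩ := dens_upper (B := BO B cl g) (x := fun a S => (Q a).kz (up S ∪ T a))
    (fun a S => (Q a).pow _) hm (κ₀ := cinf ^ Fintype.card A + δ) (by linarith) ε hε
  refine ⟨max X1 X2, fun X hX => ?_⟩
  have h3 := h1 X (le_trans (le_max_left _ _) hX)
  have h4 := h2 X (le_trans (le_max_right _ _) hX)
  have e1 : (((BO B cl g X).filter fun S => ∀ a, (Q a).kz (up S ∪ T a) = 1).card : ℝ) =
      ∑ S ∈ BG B cl g X, inJ Q T S := by
    rw [← sum_BG, card_eq_sum_ones, sum_filter]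
    push_cast
    refine sum_congr rfl fun S _ => ?_
    unfold inJ
    split_ifs with h
    · exact (prod_eq_one fun a _ => if_pos (h a)).symm
    · push Not at h
      obtain ⟨a, ha⟩ := h
      exact (prod_eq_zero (mem_univ a) (if_neg ha)).symm
  have e2 := card_any (BO B cl g X) (fun S => ∀ a, (Q a).kz (up S ∪ T a) = 1)
  rw [e2 _ (Classical.decPred _)] at h3 h4 e1
  rw [e1, card_BG] at h3 h4
  rw [abs_le]
  constructor <;> linarith

/-- **Combinations of the joint densities.** -/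
theorem comb_G {J : Type} [Fintype J] [DecidableEq J] {BB : ℕ → Finset (Finset ι)}
    (Q : A → J → Bs D) (w : A → J → ℝ) {T : A → Finset ι}
    (hM : ∀ g : A → J, MD BB (inJ (fun a => Q a (g a)) T) (cinf ^ Fintype.card A))
    (P : A → Finset ι → Prop) (h0 : by
      classical exact ∀ a S, 0 ≤ ∑ j, w a j * (if (Q a j).kz S = 1 then 1 else 0))
    (h1 : by classical exact ∀ a S, ∑ j, w a j * (if (Q a j).kz S = 1 then 1 else 0) ≤ 1)
    (hP : by
      classical exact ∀ a S, ¬ P a S → ∑ j, w a j * (if (Q a j).kz S = 1 then 1 else 0) = 0)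
    {κ₀ : ℝ} (hκ : κ₀ < (∏ a, ∑ j, w a j) * cinf ^ Fintype.card A) (ε : ℝ) (hε : 0 < ε) : by
    classical exact ∃ X₀ : ℕ, ∀ X : ℕ, X₀ ≤ X →
      κ₀ * ((BB X).card : ℝ) - ε * X ≤
      (((BB X).filter fun S => ∀ a, P a (S ∪ T a)).card : ℝ) := by
  classical
  have hm : MD BB (fun S => ∑ g : A → J, (∏ a, w a (g a)) *
      inJ (fun a => Q a (g a)) T S) (∑ g : A → J, (∏ a, w a (g a)) * cinf ^ Fintype.card A) :=
    MD.sum univ fun g _ => MD.smul (hM g) _
  have e1 : ∑ g : A → J, (∏ a, w a (g a)) * cinf ^ Fintype.card A =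
      (∏ a, ∑ j, w a j) * cinf ^ Fintype.card A := by
    rw [prod_univ_sum, Fintype.piFinset_univ, sum_mul]
  have e2 : ∀ S, ∑ g : A → J, (∏ a, w a (g a)) * inJ (fun a => Q a (g a)) T S =
      ∏ a, ∑ j, w a j * (if (Q a j).kz (S ∪ T a) = 1 then 1 else 0) := by
    intro S
    rw [prod_univ_sum, Fintype.piFinset_univ]
    refine sum_congr rfl fun g _ => ?_
    unfold inJ
    rw [← prod_mul_distrib]
  rw [e1] at hm
  set v : ℝ := (∏ a, ∑ j, w a j) * cinf ^ Fintype.card A with hv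
  obtain ⟨X0, hX0⟩ := hm (v - κ₀) (by linarith) ε hε
  refine ⟨X0, fun X hX => ?_⟩
  have h3 := (abs_le.1 (hX0 X hX)).1
  have h4 : ∑ S ∈ BB X, ∑ g : A → J, (∏ a, w a (g a)) * inJ (fun a => Q a (g a)) T S ≤
      (((BB X).filter fun S => ∀ a, P a (S ∪ T a)).card : ℝ) := by
    rw [card_eq_sum_ones, sum_filter]
    push_cast
    refine sum_le_sum fun S _ => ?_
    rw [e2]
    by_cases hPS : ∀ a, P a (S ∪ T a)
    · rw [if_pos hPS]
      exact prod_le_one (fun a _ => h0 a _) fun a _ => h1 a _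
    · rw [if_neg hPS]
      push Not at hPS
      obtain ⟨a, ha⟩ := hPS
      exact (prod_eq_zero (mem_univ a) (hP a _ ha)).le
  linarith

end

end Pool.Agent.Lib.MP_1a91b9_ntP
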