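import Pool.Agent.Lib.MP_1a91b9_ntP.G.Comb
import Pool.Agent.Lib.MP_1a91b9_ntP.G.Stat
import Pool.Agent.Lib.MP_1a91b9_ntP.J.Dsp

/-!
# MP_1a91b9_nt, several twists over `Q(sqrt -3)`, the classes of a finite group: the joint densities
-/

set_option autoImplicit false
set_option linter.unusedSectionVars false

namespace Pool.Agent.Lib.MP_1a91b9_ntP

open NumberField Finset Pool.Agent.Lib.MP_1a91b9_ntT Pool.Agent.Lib.MP_1a91b9_ntH
  Pool.Agent.Lib.MP_1a91b9_ntH2 Pool.Agent.Lib.MP_1a91b9_ntH2.Db Pool.Agent.Lib.MP_1a91b9_ntE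
  Pool.Agent.Lib.MP_1a91b9_ntS
open Pool.Agent.Lib.MP_1a91b9_ntQ (Off)

noncomputable section

variable {G : Type} [AddCommGroup G] [Fintype G]

/-- The densities in a class, from the combination theorem. -/
theorem dsg_of {cl : Pq → G} {B : Finset Pq} {g : G} {κ₀ : ℝ} {Q : Finset Pq → Prop}
    {dq : DecidablePred Q}
    (h : ∀ ε : ℝ, 0 < ε → ∃ X₀ : ℕ, ∀ X : ℕ, X₀ ≤ X →
        κ₀ * ((BG B cl g X).card : ℝ) - ε * X ≤ (((BG B cl g X).filter fun S => Q S).card : ℝ)) :
    DSG cl B g κ₀ Q := by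
  classical
  intro ε hε
  obtain ⟨X0, h0⟩ := h ε hε
  refine ⟨X0, fun X hX => ?_⟩
  have h1 := h0 X hX
  have e1 : ((BG B cl g X).card : ℝ) =
      (((Sx Pq X).filter fun S => Disjoint S B ∧ ∑ q ∈ S, cl q = g).card : ℝ) := by
    unfold BG
    exact card_any _ _ _ _
  have e2 : (((BG B cl g X).filter fun S => Q S).card : ℝ) =
      (((Sx Pq X).filter fun S => Disjoint S B ∧ ∑ q ∈ S, cl q = g ∧ Q S).card : ℝ) := by
    rw [BG, filter_filter]
    congr 2
    refine filter_congr fun S _ => ?_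
    tauto
  rw [e1] at h1
  have e3 := card_any (Sx Pq X) (fun S => Disjoint S B ∧ ∑ q ∈ S, cl q = g)
  have e4 := card_any (Sx Pq X) (fun S => Disjoint S B ∧ ∑ q ∈ S, cl q = g ∧ Q S)
  rw [e3 _ (Classical.decPred _)] at h1
  rw [e4 _ (Classical.decPred _)] at e2
  rw [e3 _ (Classical.decPred _), e4 _ (Classical.decPred _), ← e2]
  exact h1

/-- **The joint density of the good sets of primes in the classes of `G`.** -/
theorem dsjG {cl : Pq → G} (hv : ∀ B, VanP (offG qE B))
    (hcl : ∀ (B : Finset Pq) (ψ : AddChar G ℂ),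
      (offG qE B).Qc (fun q : Off B => ψ (cl q.1)) ∨ (offG qE B).Nq fun q : Off B => ψ (cl q.1)) :
    DSJG cl := by
  classical
  intro N hN f c T B hT hi g κ₀ hκ
  have : Nonempty (Fin N) := ⟨⟨0, hN⟩⟩
  have hκ' : κ₀ < (∏ i : Fin N, ∑ _j : Unit, (1 : ℝ)) * Da.cinf ^ Fintype.card (Fin N) := by
    rw [Fintype.card_fin]
    simpa using hκ
  have h := comb_G (BB := BG B cl g) (fun i (_ : Unit) => bsQ (f i) (c i)) (fun _ _ => 1)
    (fun _ => MD_inG qE_OK.rec_ (fun i => bsQ (f i) (c i)) (qG_OK B) (hv B) hT (bsQ_inj hi) cl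
      (hcl B) g) (fun i S => GdE (f i) (c i) S) (fun a S => by
        rw [sum_const, card_univ, Fintype.card_unit, one_smul, one_mul]
        split_ifs <;> norm_num) (fun a S => by
        rw [sum_const, card_univ, Fintype.card_unit, one_smul, one_mul]
        split_ifs <;> norm_num) (fun a S hS => by
        rw [sum_const, card_univ, Fintype.card_unit, one_smul, one_mul,
          if_neg fun h => hS ((bsQ_one _ _ _).1 h)]) hκ'
  exact dsg_of h

/-- **The joint density for pairs of labels in the classes of `G`.** -/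
theorem dspG {cl : Pq → G} (hv : ∀ B, VanP (offG qE B))
    (hcl : ∀ (B : Finset Pq) (ψ : AddChar G ℂ),
      (offG qE B).Qc (fun q : Off B => ψ (cl q.1)) ∨ (offG qE B).Nq fun q : Off B => ψ (cl q.1)) :
    DSPG cl := by
  classical
  intro N hN f c T B hT hi g κ₀ hκ
  have : Nonempty (Fin N) := ⟨⟨0, hN⟩⟩
  have hκ' : κ₀ < (∏ i, ∑ j, trW (f i) j) * Da.cinf ^ Fintype.card (Fin N) := by
    have h1 : (∏ i, ∑ j, trW (f i) j) * Da.cinf ^ Fintype.card (Fin N) =
        ∏ i, (if f i = true then Da.cinf / 2 else Da.cinf) := by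
      rw [← card_univ, ← prod_const, ← prod_mul_distrib]
      refine prod_congr rfl fun i _ => ?_
      rw [trW_sum]
      split_ifs
      · ring
      · ring
    rw [h1]
    exact hκ
  have hinj : Function.Injective fun i => (1 + F4.tr (c i), (if f i = true then (1 : ZMod 2) else 0),
      T i) := by
    intro a a' h
    have h1 : 1 + F4.tr (c a) = 1 + F4.tr (c a') := congrArg Prod.fst h
    have h2 : (if f a = true then (1 : ZMod 2) else 0) = if f a' = true then 1 else 0 :=
      congrArg (fun x => x.2.1) h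
    have h3 : T a = T a' := congrArg (fun x => x.2.2) h
    have h4 : ∀ x y : Bool, (if x = true then (1 : ZMod 2) else 0) =
        (if y = true then 1 else 0) → x = y := by decide
    exact hi (Prod.ext (h4 _ _ h2) (Prod.ext (add_left_cancel h1) h3))
  have h := comb_G (BB := BG B cl g) (fun i j => trQ (f i) (c i) j) (fun i j => trW (f i) j)
    (fun u => MD_inG qE_OK.rec_ (fun i => trQ (f i) (c i) (u i)) (qG_OK B) (hv B) hT (by
      have e : (fun a => ((trQ (f a) (c a) (u a)).ρ, (trQ (f a) (c a) (u a)).τ, T a)) =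
          fun i => (1 + F4.tr (c i), (if f i = true then (1 : ZMod 2) else 0), T i) :=
        funext fun a => by rw [trQ_rho, trQ_tau]
      rw [e]
      exact hinj) cl (hcl B) g)
    (fun i S => GdE (f i) (c i) S ∧ GdE (f i) (c i + 1) S)
    (fun i S => (tr_val (f i) (c i) S).1) (fun i S => (tr_val (f i) (c i) S).2.1)
    (fun i S h => (tr_val (f i) (c i) S).2.2 h) hκ'
  exact dsg_of h

end

end Pool.Agent.Lib.MP_1a91b9_ntP
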