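import Pool.Agent.Lib.MP_1a91b9_ntP.G.Tw

/-!
# MP_1a91b9_nt, several twists over `Q(sqrt -3)`, all classes: the joint moments in the classes of a
finite group
-/

set_option autoImplicit false
set_option linter.unusedSectionVars false

namespace Pool.Agent.Lib.MP_1a91b9_ntP

open Finset Pool.Agent.Lib.MP_1a91b9_ntH Pool.Agent.Lib.MP_1a91b9_ntH.Da
  Pool.Agent.Lib.MP_1a91b9_ntE
open Pool.Agent.Lib.MP_1a91b9_ntQ (Off up dn up_injective sum_up up_mem_Sx mem_up up_dn dn_up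
  disj_up e2 Mz e2_add e2_zero e2_sum norm_e2)

noncomputable section

variable {ι : Type} [DecidableEq ι] [PS ι] {D : DatE ι} {A : Type} [Fintype A] [DecidableEq A]

/-- The expansion with the weight. -/
theorem kJ_eq (hD : D.toDat.Rec) (Q : A → Bs D) {B : Finset ι} {T : A → Finset ι}
    (hT : ∀ a, T a ⊆ B) (k : A → ℕ) (S : Finset (Off B)) :
    (kJ Q T k S : ℂ) * (bJ Q T k : ℂ) = ∑ w : ∀ a, WJ Q T k a,
      e2 (∑ a, (PJ Q B T k a).e0 (w a)) * ((((LJ (PJ Q B T k) 0 w).m : ℂ)⁻¹) ^ S.card *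
        ∑ f : S → LabJ k, e2 ((offG D B).eS (LJ (PJ Q B T k) 0 w) S f)) := by
  have h3 := exp_J hD Q hT k 0 S
  have h0 : F4.tr (0 * (offG D B).toDat.A S) = 0 := by
    rw [zero_mul]
    rfl
  rw [h0, Da.sg_zero, mul_one] at h3
  have h5 : (((∏ a, 4 ^ k a : ℕ) : ℂ)) ^ S.card ≠ 0 := by
    refine pow_ne_zero _ ?_
    exact_mod_cast (prod_pos fun a _ => by positivity : 0 < ∏ a, 4 ^ k a).ne'
  have h4 : (kJ Q T k S : ℂ) * ((bJ Q T k : ℂ) * ((∏ a, 4 ^ k a : ℕ) : ℂ) ^ S.card) =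
      ∑ w : ∀ a, WJ Q T k a, e2 (∑ a, (PJ Q B T k a).e0 (w a)) *
        ∑ f : S → LabJ k, e2 ((offG D B).eS (LJ (PJ Q B T k) 0 w) S f) := by
    have h6 := congrArg (fun x : ℝ => (x : ℂ)) h3
    simp only [Complex.ofReal_mul, Complex.ofReal_pow, Complex.ofReal_natCast,
      Complex.ofReal_sum] at h6
    exact h6
  have h7 : (kJ Q T k S : ℂ) * (bJ Q T k : ℂ) = (((∏ a, 4 ^ k a : ℕ) : ℂ)⁻¹) ^ S.card *
      ((kJ Q T k S : ℂ) * ((bJ Q T k : ℂ) * ((∏ a, 4 ^ k a : ℕ) : ℂ) ^ S.card)) := by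
    rw [inv_pow]
    field_simp
  rw [h7, h4, mul_sum]
  refine sum_congr rfl fun w _ => ?_
  show (((∏ a, 4 ^ k a : ℕ) : ℂ)⁻¹) ^ S.card * (_ * _) =
    _ * ((((∏ a, 4 ^ k a : ℕ) : ℂ)⁻¹) ^ S.card * _)
  ring

/-- The joint moments with a weight which is not a quadratic character. -/
theorem momJh (hD : D.toDat.Rec) (Q : A → Bs D) {B : Finset ι} (hv : VanP (offG D B))
    {T : A → Finset ι} (hT : ∀ a, T a ⊆ B) (k : A → ℕ) {h : Off B → ℂ} (hn : ∀ q, ‖h q‖ = 1)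
    (hq : (offG D B).Nq h) (ε : ℝ) (hε : 0 < ε) :
    ∃ X₀ : ℕ, ∀ X : ℕ, X₀ ≤ X →
      ‖∑ S ∈ Sx (Off B) X, (kJ Q T k S : ℂ) * ∏ q ∈ S, h q‖ ≤ ε * X := by
  by_cases hk : ∃ a, 1 ≤ k a
  · have h2 : 2 ≤ ∏ a, 4 ^ k a := by
      obtain ⟨a, ha⟩ := hk
      calc 2 ≤ 4 ^ 1 := by norm_num
        _ ≤ 4 ^ k a := Nat.pow_le_pow_right (by norm_num) ha
        _ ≤ ∏ a, 4 ^ k a := by
          rw [← mul_prod_erase univ _ (mem_univ a)]
          exact Nat.le_mul_of_pos_right _ (prod_pos fun b _ => by positivity)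
    set C : ℝ := bJ Q T k with hC
    have hC0 : 0 < C := bJ_pos Q T k
    have hCc : (C : ℂ) ≠ 0 := by exact_mod_cast hC0.ne'
    set Nw : ℝ := (Fintype.card (∀ a, WJ Q T k a) : ℝ) with hNw
    have hNw0 : 0 ≤ Nw := Nat.cast_nonneg _
    have hδ : 0 < ε * C / (Nw + 1) := by positivity
    choose X0 h0 using fun w : ∀ a, WJ Q T k a => hv (LJ (PJ Q B T k) 0 w)
      (LJ_OK (PJ Q B T k) 0 w h2) h hn hq (ε * C / (Nw + 1)) hδ
    refine ⟨∑ w, X0 w, fun X hX => ?_⟩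
    have hXw : ∀ w, X0 w ≤ X := fun w =>
      (single_le_sum (fun _ _ => Nat.zero_le _) (mem_univ w)).trans hX
    have e1 : (∑ S ∈ Sx (Off B) X, (kJ Q T k S : ℂ) * ∏ q ∈ S, h q) * (C : ℂ) =
        ∑ w : ∀ a, WJ Q T k a, e2 (∑ a, (PJ Q B T k a).e0 (w a)) *
          ∑ S ∈ Sx (Off B) X, (((LJ (PJ Q B T k) 0 w).m : ℂ)⁻¹) ^ S.card * (∏ q ∈ S, h q) *
            ∑ f : S → LabJ k, e2 ((offG D B).eS (LJ (PJ Q B T k) 0 w) S f) := by
      rw [sum_mul]
      have h3 : ∀ S ∈ Sx (Off B) X, (kJ Q T k S : ℂ) * (∏ q ∈ S, h q) * (C : ℂ) =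
          ∑ w : ∀ a, WJ Q T k a, e2 (∑ a, (PJ Q B T k a).e0 (w a)) *
            ((((LJ (PJ Q B T k) 0 w).m : ℂ)⁻¹) ^ S.card * (∏ q ∈ S, h q) *
            ∑ f : S → LabJ k, e2 ((offG D B).eS (LJ (PJ Q B T k) 0 w) S f)) := by
        intro S _
        have h4 := kJ_eq hD Q hT k S
        have h5 : (kJ Q T k S : ℂ) * (∏ q ∈ S, h q) * (C : ℂ) =
            ((kJ Q T k S : ℂ) * (bJ Q T k : ℂ)) * ∏ q ∈ S, h q := by
          rw [← hC]
          ring
        rw [h5, h4, sum_mul]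
        refine sum_congr rfl fun w _ => ?_
        ring
      rw [sum_congr rfl h3, sum_comm]
      refine sum_congr rfl fun w _ => ?_
      rw [mul_sum]
    have e2' : ‖(∑ S ∈ Sx (Off B) X, (kJ Q T k S : ℂ) * ∏ q ∈ S, h q) * (C : ℂ)‖ ≤
        ε * X * C := by
      rw [e1]
      refine (norm_sum_le _ _).trans ?_
      calc ∑ w : ∀ a, WJ Q T k a, ‖e2 (∑ a, (PJ Q B T k a).e0 (w a)) *
            ∑ S ∈ Sx (Off B) X, (((LJ (PJ Q B T k) 0 w).m : ℂ)⁻¹) ^ S.card * (∏ q ∈ S, h q) *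
              ∑ f : S → LabJ k, e2 ((offG D B).eS (LJ (PJ Q B T k) 0 w) S f)‖
          ≤ ∑ _w : ∀ a, WJ Q T k a, ε * C / (Nw + 1) * X := by
            refine sum_le_sum fun w _ => ?_
            rw [norm_mul, norm_e2, one_mul]
            exact h0 w X (hXw w)
        _ = Nw / (Nw + 1) * (ε * C * X) := by
          rw [sum_const, card_univ, nsmul_eq_mul]
          field_simp
          rfl
        _ ≤ 1 * (ε * C * X) := by
          refine mul_le_mul_of_nonneg_right ?_ (by positivity)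
          rw [div_le_one (by positivity)]
          linarith
        _ = ε * X * C := by ring
    rw [norm_mul, Complex.norm_real, Real.norm_eq_abs, abs_of_pos hC0] at e2'
    exact le_of_mul_le_mul_right e2' hC0
  · push Not at hk
    have hk0 : ∀ a, k a = 0 := fun a => by
      have := hk a
      omega
    have h1 : ∀ S : Finset (Off B), kJ Q T k S = 1 := by
      intro S
      unfold kJ
      exact prod_eq_one fun a _ => by rw [hk0 a, pow_zero]
    obtain ⟨X0, h0⟩ := hq 0 0 ε hε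
    refine ⟨X0, fun X hX => ?_⟩
    have h3 := h0 X hX
    rw [filter_true_of_mem fun S _ => disjoint_empty_right S] at h3
    have h4 : ∀ q : Off B, h q * e2 (F4.tr (0 * (offG D B).a q) + (offG D B).lg 0 q) = h q := by
      intro q
      rw [lg_zero, zero_mul, add_zero]
      show h q * e2 0 = h q
      rw [e2_zero, mul_one]
    simp only [h4] at h3
    simp only [h1, Complex.ofReal_one, one_mul]
    exact h3

/-- The joint moments with a weight which is not trivial. -/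
theorem momJt (hD : D.toDat.Rec) (Q : A → Bs D) {B : Finset ι} (hB : (offG D B).OK)
    (hv : VanP (offG D B)) {T : A → Finset ι} (hT : ∀ a, T a ⊆ B)
    (hi : Function.Injective fun a => ((Q a).ρ, (Q a).τ, T a)) (k : A → ℕ) {h : Off B → ℂ}
    (hn : ∀ q, ‖h q‖ = 1) (hh : (offG D B).Qc h ∨ (offG D B).Nq h) (h1 : ∃ q, h q ≠ 1)
    (ε : ℝ) (hε : 0 < ε) :
    ∃ X₀ : ℕ, ∀ X : ℕ, X₀ ≤ X →
      ‖∑ S ∈ Sx (Off B) X, (kJ Q T k S : ℂ) * ∏ q ∈ S, h q‖ ≤ ε * X := by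
  rcases hh with ⟨c, e, hce⟩ | hq
  · have hne : c ≠ 0 ∨ e ≠ 0 := by
      by_contra hcon
      push Not at hcon
      obtain ⟨rfl, rfl⟩ := hcon
      obtain ⟨q, hq⟩ := h1
      apply hq
      rw [hce q, lg_zero, zero_mul, add_zero]
      exact e2_zero
    obtain ⟨X0, h0⟩ := momJe hD Q hB hT hi k c e hne ε hε
    refine ⟨X0, fun X hX => ?_⟩
    have h3 := h0 X hX
    have h4 : ∑ S ∈ Sx (Off B) X, (kJ Q T k S : ℂ) * ∏ q ∈ S, h q =
        ((∑ S ∈ Sx (Off B) X, kJ Q T k S * sg (F4.tr (c * (offG D B).toDat.A S) +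
          (offG D B).lG e S) : ℝ) : ℂ) := by
      rw [Complex.ofReal_sum]
      refine sum_congr rfl fun S _ => ?_
      rw [Complex.ofReal_mul]
      congr 1
      rw [prod_congr rfl fun q _ => hce q, ← e2_sum, sum_add_distrib, ← Da.F4.tr_sum, ← mul_sum]
      rfl
    rw [h4, Complex.norm_real, Real.norm_eq_abs]
    exact h3
  · exact momJh hD Q hv hT k hn hq ε hε

/-! ### The classes -/

variable {G : Type} [AddCommGroup G] [Fintype G]

open Classical in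
/-- The squarefree integers prime to `B` in the class `g`. -/
def BO (B : Finset ι) (cl : ι → G) (g : G) (X : ℕ) : Finset (Finset (Off B)) :=
  (Sx (Off B) X).filter fun S => ∑ q ∈ S, cl q.1 = g

theorem norm_psi (ψ : AddChar G ℂ) (x : G) : ‖ψ x‖ = 1 := by
  have h1 : ψ x ^ Fintype.card G = 1 := by
    rw [← AddChar.map_nsmul_eq_pow, card_nsmul_eq_zero, AddChar.map_zero_eq_one]
  exact Complex.norm_eq_one_of_pow_eq_one h1 Fintype.card_ne_zero

open Classical in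
/-- The indicator of a class. -/
theorem ind_G (x g : G) : (if x = g then (1 : ℂ) else 0) =
    (∑ ψ : AddChar G ℂ, ψ (-g) * ψ x) / Fintype.card G := by
  have hc : (Fintype.card G : ℂ) ≠ 0 := Nat.cast_ne_zero.2 Fintype.card_ne_zero
  have h1 : ∀ ψ : AddChar G ℂ, ψ (-g) * ψ x = ψ (x - g) := by
    intro ψ
    rw [← AddChar.map_add_eq_mul, neg_add_eq_sub]
  rw [sum_congr rfl fun ψ _ => h1 ψ, AddChar.sum_apply_eq_ite]
  by_cases h : x = g
  · rw [if_pos h, if_pos (sub_eq_zero.2 h), div_self hc]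
  · rw [if_neg h, if_neg (sub_ne_zero.2 h), zero_div]

theorem prod_psi {α : Type} (ψ : AddChar G ℂ) (S : Finset α) (f : α → G) :
    ψ (∑ q ∈ S, f q) = ∏ q ∈ S, ψ (f q) := by
  classical
  induction S using Finset.induction_on with
  | empty => rw [sum_empty, prod_empty, AddChar.map_zero_eq_one]
  | insert a S ha ih => rw [sum_insert ha, prod_insert ha, AddChar.map_add_eq_mul, ih]

/-- **The joint moments in the classes of a finite group.** -/
theorem MV_G (hD : D.toDat.Rec) (Q : A → Bs D) {B : Finset ι} (hB : (offG D B).OK)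
    (hv : VanP (offG D B)) {T : A → Finset ι} (hT : ∀ a, T a ⊆ B)
    (hi : Function.Injective fun a => ((Q a).ρ, (Q a).τ, T a)) (cl : ι → G)
    (hcl : ∀ ψ : AddChar G ℂ, (offG D B).Qc (fun q : Off B => ψ (cl q.1)) ∨
      (offG D B).Nq fun q : Off B => ψ (cl q.1)) (g : G) (k : A → ℕ) :
    MV (BO B cl g) (kJ Q T k) (∏ a, (Nk (k a) : ℝ)) := by
  classical
  intro ε hε
  set N : ℝ := ∏ a, (Nk (k a) : ℝ) with hN
  have hN0 : 0 ≤ N := prod_nonneg fun a _ => Nat.cast_nonneg _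
  have hk1 : ∀ S : Finset (Off B), kJ Q T (fun _ => 0) S = 1 := by
    intro S
    unfold kJ
    exact prod_eq_one fun a _ => pow_zero _
  -- every character
  have key : ∀ ψ : AddChar G ℂ, ∃ X₀ : ℕ, ∀ X : ℕ, X₀ ≤ X →
      ‖∑ S ∈ Sx (Off B) X, ((kJ Q T k S : ℂ) - (N : ℂ)) * ∏ q ∈ S, ψ (cl q.1)‖ ≤ ε * X := by
    intro ψ
    by_cases h1 : ∃ q : Off B, ψ (cl q.1) ≠ 1
    · obtain ⟨X1, h2⟩ := momJt hD Q hB hv hT hi k (fun q => norm_psi ψ (cl q.1)) (hcl ψ) h1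
        (ε / (1 + N)) (by positivity)
      obtain ⟨X2, h3⟩ := momJt hD Q hB hv hT hi (fun _ => 0) (fun q => norm_psi ψ (cl q.1))
        (hcl ψ) h1 (ε / (1 + N)) (by positivity)
      refine ⟨max X1 X2, fun X hX => ?_⟩
      have h4 := h2 X (le_trans (le_max_left _ _) hX)
      have h5 := h3 X (le_trans (le_max_right _ _) hX)
      simp only [hk1, Complex.ofReal_one, one_mul] at h5
      have h6 : ∑ S ∈ Sx (Off B) X, ((kJ Q T k S : ℂ) - (N : ℂ)) * ∏ q ∈ S, ψ (cl q.1) =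
          ∑ S ∈ Sx (Off B) X, (kJ Q T k S : ℂ) * ∏ q ∈ S, ψ (cl q.1) -
            (N : ℂ) * ∑ S ∈ Sx (Off B) X, ∏ q ∈ S, ψ (cl q.1) := by
        rw [mul_sum, ← sum_sub_distrib]
        exact sum_congr rfl fun S _ => sub_mul _ _ _
      rw [h6]
      calc _ ≤ ‖∑ S ∈ Sx (Off B) X, (kJ Q T k S : ℂ) * ∏ q ∈ S, ψ (cl q.1)‖ +
            ‖(N : ℂ) * ∑ S ∈ Sx (Off B) X, ∏ q ∈ S, ψ (cl q.1)‖ := norm_sub_le _ _
        _ ≤ ε / (1 + N) * X + N * (ε / (1 + N) * X) := by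
          rw [norm_mul, Complex.norm_real, Real.norm_eq_abs, abs_of_nonneg hN0]
          exact add_le_add h4 (mul_le_mul_of_nonneg_left h5 hN0)
        _ = ε * X := by field_simp
    · push Not at h1
      obtain ⟨X0, h0⟩ := momJ hD Q hB hT hi k 0 ε hε
      refine ⟨X0, fun X hX => ?_⟩
      have h2 := h0 X hX
      have h3 : ∀ S : Finset (Off B), sg (F4.tr (0 * (offG D B).toDat.A S)) = 1 := by
        intro S
        rw [zero_mul]
        exact Da.sg_zero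
      simp only [h3, mul_one, if_true] at h2
      have h4 : ∑ S ∈ Sx (Off B) X, ((kJ Q T k S : ℂ) - (N : ℂ)) * ∏ q ∈ S, ψ (cl q.1) =
          ((∑ S ∈ Sx (Off B) X, kJ Q T k S - N * (Sx (Off B) X).card : ℝ) : ℂ) := by
        push_cast
        have h5 : ∀ S ∈ Sx (Off B) X, ((kJ Q T k S : ℂ) - (N : ℂ)) * ∏ q ∈ S, ψ (cl q.1) =
            (kJ Q T k S : ℂ) - (N : ℂ) := by
          intro S _
          rw [prod_eq_one fun q _ => h1 q, mul_one]
        rw [sum_congr rfl h5, sum_sub_distrib, sum_const, nsmul_eq_mul]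
        ring
      rw [h4, Complex.norm_real, Real.norm_eq_abs]
      exact h2
  choose X0 h0 using key
  refine ⟨∑ ψ, X0 ψ, fun X hX => ?_⟩
  have hXp : ∀ ψ, X0 ψ ≤ X := fun ψ =>
    (single_le_sum (fun _ _ => Nat.zero_le _) (mem_univ ψ)).trans hX
  have hG : (0 : ℝ) < Fintype.card G := by exact_mod_cast Fintype.card_pos
  have hGc : (Fintype.card G : ℂ) ≠ 0 := Nat.cast_ne_zero.2 Fintype.card_ne_zero
  have e1 : ((∑ S ∈ BO B cl g X, kJ Q T k S - N * (BO B cl g X).card : ℝ) : ℂ) =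
      (∑ ψ : AddChar G ℂ, ψ (-g) * ∑ S ∈ Sx (Off B) X, ((kJ Q T k S : ℂ) - (N : ℂ)) *
        ∏ q ∈ S, ψ (cl q.1)) / Fintype.card G := by
    have h1 : ((∑ S ∈ BO B cl g X, kJ Q T k S - N * (BO B cl g X).card : ℝ) : ℂ) =
        ∑ S ∈ Sx (Off B) X, ((kJ Q T k S : ℂ) - (N : ℂ)) *
          (if ∑ q ∈ S, cl q.1 = g then (1 : ℂ) else 0) := by
      have h2 : ∑ S ∈ BO B cl g X, kJ Q T k S - N * (BO B cl g X).card =
          ∑ S ∈ BO B cl g X, (kJ Q T k S - N) := by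
        rw [sum_sub_distrib, sum_const, nsmul_eq_mul]
        ring
      rw [h2, BO, sum_filter, Complex.ofReal_sum]
      refine sum_congr rfl fun S _ => ?_
      split_ifs
      · rw [mul_one]
        push_cast
        rfl
      · rw [mul_zero, Complex.ofReal_zero]
    rw [h1, sum_congr rfl fun S _ => by rw [ind_G]]
    simp only [mul_sum, sum_div]
    rw [sum_comm]
    refine sum_congr rfl fun ψ _ => sum_congr rfl fun S _ => ?_
    rw [prod_psi]
    ring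
  have e2' : |∑ S ∈ BO B cl g X, kJ Q T k S - N * (BO B cl g X).card| =
      ‖((∑ S ∈ BO B cl g X, kJ Q T k S - N * (BO B cl g X).card : ℝ) : ℂ)‖ := by
    rw [Complex.norm_real, Real.norm_eq_abs]
  rw [e2', e1, norm_div, Complex.norm_natCast, div_le_iff₀ hG]
  refine (norm_sum_le _ _).trans ?_
  calc ∑ ψ : AddChar G ℂ, ‖ψ (-g) * ∑ S ∈ Sx (Off B) X, ((kJ Q T k S : ℂ) - (N : ℂ)) *
        ∏ q ∈ S, ψ (cl q.1)‖ ≤ ∑ _ψ : AddChar G ℂ, ε * X := by
        refine sum_le_sum fun ψ _ => ?_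
        rw [norm_mul, norm_psi, one_mul]
        exact h0 ψ X (hXp ψ)
    _ = ε * X * Fintype.card G := by
      rw [sum_const, card_univ, nsmul_eq_mul, AddChar.card_eq]
      ring

end

end Pool.Agent.Lib.MP_1a91b9_ntP
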