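import Pool.Agent.Lib.MP_1a91b9_ntP.G.GDef
import Pool.Agent.Lib.MP_1a91b9_ntP.J.Mom

/-!
# MP_1a91b9_nt, several twists over `Q(sqrt -3)`, all classes: the joint moments with the additional
characters

The main term vanishes, since the additional linear terms are zero on the maximal unlinked sets on
which they are constant.
-/

set_option autoImplicit false
set_option linter.unusedSectionVars false

namespace Pool.Agent.Lib.MP_1a91b9_ntP

open Finset Pool.Agent.Lib.MP_1a91b9_ntH Pool.Agent.Lib.MP_1a91b9_ntH.Da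
  Pool.Agent.Lib.MP_1a91b9_ntE
open Pool.Agent.Lib.MP_1a91b9_ntQ (Off up dn up_injective sum_up up_mem_Sx mem_up up_dn dn_up
  disj_up e2 Mz)

noncomputable section

section Sys

variable {A : Type} [Fintype A] [DecidableEq A] {k : A → ℕ} {κ : Type} [Fintype κ]
  {W : A → Type}

/-- The joint system with the additional character `e`. -/
def LJe (P : ∀ a, Loc κ (k a) (W a)) (y : F4) (e : κ → ZMod 2) (w : ∀ a, W a) :
    LSysG (LabJ k) κ where
  toLSys := (LJ P y w).toLSys
  del l := (LJ P y w).del l + e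

variable {P : ∀ a, Loc κ (k a) (W a)} {y : F4} {w : ∀ a, W a} {e : κ → ZMod 2}

theorem LJe_OK (h : 2 ≤ ∏ a, 4 ^ k a) : (LJe P y e w).OK := LJ_OK P y w h

/-- The maximal unlinked sets with nonzero average are products. -/
theorem decLJe {ρ : A → ZMod 2} {τ : A → κ → ZMod 2} (hP : ∀ a, (P a).Ok (ρ a) (τ a))
    (hd : Function.Injective fun a => (ρ a, τ a)) {U : Finset (LabJ k)}
    (hU : U ∈ (LJe P y e w).Us) (hc : (LJe P y e w).cU U ≠ 0) :
    U = Fintype.piFinset (pjJ U) ∧ ∀ a, pjJ U a ∈ Us (k a) := by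
  classical
  obtain ⟨hU1, hU2⟩ := (mem_UsJ P y w).1 hU
  have hdel : ∀ l ∈ U, (LJe P y e w).del l = 0 := by
    by_contra h
    exact hc (by rw [LSysG.cU, if_neg h])
  have hc' : (LJ P y w).toLSys.cU U ≠ 0 := by
    rw [LSysG.cU, if_pos hdel] at hc
    exact hc
  set c : A → Unit ⊕ κ → ZMod 2 := fun a => Sum.elim (fun _ => ρ a) (τ a) with hcd
  have hci : Function.Injective c := by
    intro a b h
    refine hd (Prod.ext ?_ ?_)
    · exact congrFun h (Sum.inl ())
    · exact funext fun j => congrFun h (Sum.inr j)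
  refine decJ hci hU1 hU2 fun u hu x z hx hz hxz j => ?_
  rcases j with j | j
  · have h1 := cU_four (LJ_inj P y w) (LJ_diag P y w) ((LJ_Unl P y w).2 hU1) hu hx hz hxz hc'
      fun l _ => by
        show ∑ a, Phi (l a) (u a) + ∑ a, Phi (l a) ((u + x) a) + ∑ a, Phi (l a) ((u + z) a) +
          ∑ a, Phi (l a) ((u + x + z) a) = 0
        rw [← sum_add_distrib, ← sum_add_distrib, ← sum_add_distrib]
        exact sum_eq_zero fun a _ => Phi_aff (l a) (u a) (x a) (z a)
    rw [← h1]
    show ∑ a, ρ a * Bf (x a) (z a) = F4.tr ((∑ a, (P a).gam (w a) (u a) + y) +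
      (∑ a, (P a).gam (w a) ((u + x) a) + y) + (∑ a, (P a).gam (w a) ((u + z) a) + y) +
      (∑ a, (P a).gam (w a) ((u + x + z) a) + y))
    have e1 : (∑ a, (P a).gam (w a) (u a) + y) +
      (∑ a, (P a).gam (w a) ((u + x) a) + y) + (∑ a, (P a).gam (w a) ((u + z) a) + y) +
      (∑ a, (P a).gam (w a) ((u + x + z) a) + y) =
      ∑ a, ((P a).gam (w a) (u a) + (P a).gam (w a) (u a + x a) + (P a).gam (w a) (u a + z a) +
        (P a).gam (w a) (u a + x a + z a)) := by
      simp only [sum_add_distrib]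
      have h2 : y + y = 0 := F4.add_self y
      linear_combination 2 * h2
    rw [e1, Da.F4.tr_sum]
    exact sum_congr rfl fun a _ => ((hP a).gam4 (w a) (u a) (x a) (z a)).symm
  · show ∑ a, τ a j * Bf (x a) (z a) = 0
    have e1 : ∀ l ∈ U, ∑ a, (P a).del (w a) (l a) j = e j := by
      intro l hl
      have h2 : (∑ a, (P a).del (w a) (l a) + e) j = 0 := congrFun (hdel l hl) j
      rw [Pi.add_apply, Finset.sum_apply] at h2
      have h3 : ∀ x y : ZMod 2, x + y = 0 → x = y := by decide
      exact h3 _ _ h2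
    have e2 : ∑ a, τ a j * Bf (x a) (z a) = ∑ a, (P a).del (w a) (u a) j +
        ∑ a, (P a).del (w a) ((u + x) a) j + ∑ a, (P a).del (w a) ((u + z) a) j +
        ∑ a, (P a).del (w a) ((u + x + z) a) j := by
      rw [← sum_add_distrib, ← sum_add_distrib, ← sum_add_distrib]
      exact sum_congr rfl fun a _ => ((hP a).del4 (w a) (u a) (x a) (z a) j).symm
    rw [e2, e1 _ hu, e1 _ hx, e1 _ hz, e1 _ hxz]
    have h3 : ∀ x : ZMod 2, x + x + x + x = 0 := by decide
    exact h3 _

/-- The main term vanishes. -/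
theorem sum_cUJe {ρ : A → ZMod 2} {τ : A → κ → ZMod 2} (hP : ∀ a, (P a).Ok (ρ a) (τ a))
    (hd : Function.Injective fun a => (ρ a, τ a)) (he : e ≠ 0) :
    ∑ U ∈ (LJe P y e w).Us, (LJe P y e w).cU U = 0 := by
  classical
  refine sum_eq_zero fun U hU => ?_
  by_contra hc
  obtain ⟨h1, hV⟩ := decLJe hP hd hU hc
  have hdel : ∀ l ∈ U, (LJe P y e w).del l = 0 := by
    by_contra h
    exact hc (by rw [LSysG.cU, if_neg h])
  set V := pjJ U with hVd
  choose v hv using fun b => Us_nonempty (hV b)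
  have hvU : v ∈ U := by
    rw [h1]
    exact Fintype.mem_piFinset.2 hv
  have key : ∀ l ∈ U, ∑ a, (P a).del (w a) (l a) = e := by
    intro l hl
    have h2 : ∑ a, (P a).del (w a) (l a) + e = 0 := hdel l hl
    funext j
    have h3 := congrFun h2 j
    have h4 : ∀ x y : ZMod 2, x + y = 0 → x = y := by decide
    exact h4 _ _ h3
  have h2 : ∀ a j, ∀ u ∈ V a, (P a).del (w a) u j = (P a).del (w a) (v a) j := by
    intro a j u hu
    have h6 : Function.update v a u ∈ U := by
      rw [h1, Fintype.mem_piFinset]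
      intro b
      by_cases hb : b = a
      · subst hb
        rw [Function.update_self]
        exact hu
      · rw [Function.update_of_ne hb]
        exact hv b
    have h7 : (∑ b, (P b).del (w b) (Function.update v a u b)) j =
        (∑ b, (P b).del (w b) (v b)) j := by
      rw [key _ h6, key _ hvU]
    rw [Finset.sum_apply, Finset.sum_apply, ← add_sum_erase _ _ (mem_univ a),
      ← add_sum_erase _ _ (mem_univ a), Function.update_self] at h7
    have h9 : ∑ b ∈ univ.erase a, (P b).del (w b) (Function.update v a u b) j =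
        ∑ b ∈ univ.erase a, (P b).del (w b) (v b) j :=
      sum_congr rfl fun b hb => by rw [Function.update_of_ne (ne_of_mem_erase hb)]
    rw [h9] at h7
    exact add_right_cancel h7
  have h3 : ∀ a, (P a).del (w a) (v a) = 0 := by
    intro a
    funext j
    refine (hP a).cst (w a) (V a) (hV a) j (fun l hl l' hl' => ?_) (v a) (hv a)
    rw [h2 a j l hl, h2 a j l' hl']
  apply he
  rw [← key v hvU]
  exact sum_eq_zero fun a _ => h3 a

theorem eS_LJe {ι : Type} [DecidableEq ι] (D : DatG ι κ) (P : ∀ a, Loc κ (k a) (W a)) (y : F4)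
    (e : κ → ZMod 2) (w : ∀ a, W a) (S : Finset ι) (f : S → LabJ k) :
    D.eS (LJe P y e w) S f = D.eS (LJ P y w) S f + D.lG e S := by
  unfold DatG.eS
  have h1 : D.lG e S = ∑ j : S, D.lg e j := (sum_coe_sort S fun j => D.lg e j).symm
  rw [h1, add_assoc, ← sum_add_distrib]
  congr 1
  refine sum_congr rfl fun j _ => ?_
  show D.lg ((LJ P y w).del (f j) + e) j = _
  rw [lg_add]

end Sys

variable {ι : Type} [DecidableEq ι] {D : DatE ι} {A : Type} [Fintype A] [DecidableEq A]

variable [PS ι]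

/-- The joint moments with a quadratic character which is not trivial. -/
theorem momJe (hD : D.toDat.Rec) (Q : A → Bs D) {B : Finset ι} (hB : (offG D B).OK)
    {T : A → Finset ι} (hT : ∀ a, T a ⊆ B)
    (hi : Function.Injective fun a => ((Q a).ρ, (Q a).τ, T a)) (k : A → ℕ) (y : F4)
    (e : Unit ⊕ B → ZMod 2) (hye : y ≠ 0 ∨ e ≠ 0) (ε : ℝ) (hε : 0 < ε) :
    ∃ X₀ : ℕ, ∀ X : ℕ, X₀ ≤ X → |∑ S ∈ Sx (Off B) X, kJ Q T k S *
      sg (F4.tr (y * (offG D B).toDat.A S) + (offG D B).lG e S)| ≤ ε * X := by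
  by_cases he : e = 0
  · subst he
    have hy : y ≠ 0 := hye.resolve_right fun h => h rfl
    obtain ⟨X0, h0⟩ := momJ hD Q hB hT hi k y ε hε
    refine ⟨X0, fun X hX => ?_⟩
    have h1 := h0 X hX
    rw [if_neg hy, zero_mul, sub_zero] at h1
    simp only [lG_zero, add_zero]
    exact h1
  · by_cases hk : ∃ a, 1 ≤ k a
    · have h2 : 2 ≤ ∏ a, 4 ^ k a := by
        obtain ⟨a, ha⟩ := hk
        calc 2 ≤ 4 ^ 1 := by norm_num
          _ ≤ 4 ^ k a := Nat.pow_le_pow_right (by norm_num) ha
          _ ≤ ∏ a, 4 ^ k a := by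
            rw [← mul_prod_erase univ _ (mem_univ a)]
            exact Nat.le_mul_of_pos_right _ (prod_pos fun b _ => by positivity)
      set C : ℝ := bJ Q T k with hC
      have hC0 : 0 < C := bJ_pos Q T k
      set Nw : ℝ := (Fintype.card (∀ a, WJ Q T k a) : ℝ) with hNw
      have hNw0 : 0 ≤ Nw := Nat.cast_nonneg _
      have hδ : 0 < ε * C / (Nw + 1) := by positivity
      choose X0 h0 using fun w : ∀ a, WJ Q T k a => engineP (offG D B) hB
        (LJe (PJ Q B T k) y e w) (LJe_OK h2) (ε * C / (Nw + 1)) hδ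
      refine ⟨∑ w, X0 w, fun X hX => ?_⟩
      have hXw : ∀ w, X0 w ≤ X := fun w =>
        (single_le_sum (fun _ _ => Nat.zero_le _) (mem_univ w)).trans hX
      have h0' : ∀ w, |∑ S ∈ Sx (Off B) X, (((LJe (PJ Q B T k) y e w).m : ℝ)⁻¹) ^ S.card *
          ∑ f : S → LabJ k, sg ((offG D B).eS (LJe (PJ Q B T k) y e w) S f)| ≤
          ε * C / (Nw + 1) * X := by
        intro w
        have h3 := h0 w X (hXw w)
        rw [sum_cUJe (fun a => PJ_Ok Q B T k a) (tJ_inj hT hi) he, zero_mul, sub_zero] at h3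
        exact h3
      -- the sum over the coordinates
      have e1 : ∑ S ∈ Sx (Off B) X, kJ Q T k S *
          sg (F4.tr (y * (offG D B).toDat.A S) + (offG D B).lG e S) =
          (∑ w : ∀ a, WJ Q T k a, sg (∑ a, (PJ Q B T k a).e0 (w a)) *
            ∑ S ∈ Sx (Off B) X, (((LJe (PJ Q B T k) y e w).m : ℝ)⁻¹) ^ S.card *
              ∑ f : S → LabJ k, sg ((offG D B).eS (LJe (PJ Q B T k) y e w) S f)) / C := by
        rw [eq_div_iff hC0.ne', sum_mul]
        simp only [mul_sum]
        rw [sum_comm]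
        refine sum_congr rfl fun S _ => ?_
        have h3 := exp_J hD Q hT k y S
        have h4 : (0 : ℝ) < ((∏ a, 4 ^ k a : ℕ) : ℝ) ^ S.card := by
          have h5 : (0 : ℝ) < ((∏ a, 4 ^ k a : ℕ) : ℝ) := by
            exact_mod_cast (by omega : 0 < ∏ a, 4 ^ k a)
          positivity
        have h6 : kJ Q T k S * sg (F4.tr (y * (offG D B).toDat.A S)) * C =
            (((∏ a, 4 ^ k a : ℕ) : ℝ)⁻¹) ^ S.card * ∑ w : ∀ a, WJ Q T k a,
              sg (∑ a, (PJ Q B T k a).e0 (w a)) *
                ∑ f : S → LabJ k, sg ((offG D B).eS (LJ (PJ Q B T k) y w) S f) := by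
          rw [← h3, inv_pow]
          field_simp
          rfl
        have h7 : kJ Q T k S * sg (F4.tr (y * (offG D B).toDat.A S) + (offG D B).lG e S) * C =
            (kJ Q T k S * sg (F4.tr (y * (offG D B).toDat.A S)) * C) *
              sg ((offG D B).lG e S) := by
          rw [sgD_add]
          ring
        rw [h7, h6, mul_assoc, sum_mul, mul_sum]
        refine sum_congr rfl fun w _ => ?_
        rw [mul_assoc, sum_mul, mul_sum, mul_sum]
        refine sum_congr rfl fun f _ => ?_
        rw [eS_LJe, sgD_add]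
        show _ = _ * ((((∏ a, 4 ^ k a : ℕ) : ℝ)⁻¹) ^ S.card * _)
        ring
      rw [e1, abs_div, abs_of_pos hC0, div_le_iff₀ hC0]
      calc |∑ w : ∀ a, WJ Q T k a, sg (∑ a, (PJ Q B T k a).e0 (w a)) *
            ∑ S ∈ Sx (Off B) X, (((LJe (PJ Q B T k) y e w).m : ℝ)⁻¹) ^ S.card *
              ∑ f : S → LabJ k, sg ((offG D B).eS (LJe (PJ Q B T k) y e w) S f)|
          ≤ ∑ w : ∀ a, WJ Q T k a, |sg (∑ a, (PJ Q B T k a).e0 (w a)) *
            ∑ S ∈ Sx (Off B) X, (((LJe (PJ Q B T k) y e w).m : ℝ)⁻¹) ^ S.card *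
              ∑ f : S → LabJ k, sg ((offG D B).eS (LJe (PJ Q B T k) y e w) S f)| :=
            abs_sum_le_sum_abs _ _
        _ ≤ ∑ _w : ∀ a, WJ Q T k a, ε * C / (Nw + 1) * X := by
          refine sum_le_sum fun w _ => ?_
          rw [abs_mul, sgD_abs, one_mul]
          exact h0' w
        _ = Nw / (Nw + 1) * (ε * C * X) := by
          rw [sum_const, card_univ, nsmul_eq_mul]
          field_simp
          rfl
        _ ≤ 1 * (ε * C * X) := by
          refine mul_le_mul_of_nonneg_right ?_ (by positivity)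
          rw [div_le_one (by positivity)]
          linarith
        _ = ε * X * C := by ring
    · push Not at hk
      have hk0 : ∀ a, k a = 0 := fun a => by
        have := hk a
        omega
      have h1 : ∀ S : Finset (Off B), kJ Q T k S = 1 := by
        intro S
        unfold kJ
        exact prod_eq_one fun a _ => by rw [hk0 a, pow_zero]
      simp only [h1, one_mul]
      exact hB.h3 y e hye ε hε

end

end Pool.Agent.Lib.MP_1a91b9_ntP
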